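import Mathlib

/-! Two-choice random k-SAT: definitions and the deterministic satisfiability criterion. -/

set_option autoImplicit false
open Classical Finset

namespace Pool.Agent.Lib.MP_1887ad_co

/-- An ordered `k`-clause on `n` variables: distinct variables and signs. -/
abbrev Cl (k n : ℕ) := (Fin k ↪ Fin n) × (Fin k → Bool)

/-- Number of positive literals. -/
def npos {k : ℕ} (s : Fin k → Bool) : ℕ := (univ.filter (fun j => s j = true)).card

/-- The rule on sign patterns: take the second clause iff it has more positive literals. -/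
def rl {k : ℕ} (s : (Fin k → Bool) × (Fin k → Bool)) : Bool := decide (npos s.1 < npos s.2)

/-- The rule on pairs of clauses. -/
def rule {k n : ℕ} (p : Cl k n × Cl k n) : Bool := rl (p.1.2, p.2.2)

/-- The chosen clause. -/
def ch {k n : ℕ} (p : Cl k n × Cl k n) : Cl k n := if rule p then p.2 else p.1

/-- Every variable occurring positively in a clause of `I` occurs negatively in a clause of `I`. -/
def Closed {ι : Type} {k n : ℕ} (c : ι → Cl k n) (I : Finset ι) : Prop :=
  ∀ i ∈ I, ∀ j, (c i).2 j = true →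
    ∃ i' ∈ I, ∃ j', (c i').2 j' = false ∧ (c i').1 j' = (c i).1 j

theorem sat_of_not_bad {m k n T : ℕ} (c : Fin m → Cl k n) (hT : 0 < T) (hTn : T ≤ n)
    (hA : ∀ I : Finset (Fin m), I.card = T → ¬ Closed c I)
    (hB : ∀ (I : Finset (Fin m)) (V : Finset (Fin n)), 0 < I.card → I.card ≤ T →
      V.card = I.card → ¬ ∀ i ∈ I, ∀ j, (c i).1 j ∈ V) :
    ∃ a : Fin n → Bool, ∀ i, ∃ j, a ((c i).1 j) = (c i).2 j := by
  have hne : (univ.filter (fun I : Finset (Fin m) => I.card < T ∧ Closed c I)).Nonempty := by
    refine ⟨∅, ?_⟩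
    simp only [mem_filter, mem_univ, true_and, card_empty]
    exact ⟨hT, fun i hi => absurd hi (notMem_empty i)⟩
  obtain ⟨I, hI, hmax⟩ := exists_max_image _ (fun I : Finset (Fin m) => I.card) hne
  simp only [mem_filter, mem_univ, true_and] at hI hmax
  obtain ⟨hIT, hIc⟩ := hI
  have hout : ∀ i, i ∉ I → ∃ j, (c i).2 j = true ∧
      ∀ i' ∈ I, ∀ j', (c i').2 j' = false → (c i').1 j' ≠ (c i).1 j := by
    intro i hi
    by_contra hcon
    push Not at hcon
    have hcl : Closed c (insert i I) := by
      intro i1 hi1 j hj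
      rcases mem_insert.mp hi1 with rfl | h1
      · obtain ⟨i', hi', j', h2, h3⟩ := hcon j hj
        exact ⟨i', mem_insert_of_mem hi', j', h2, h3⟩
      · obtain ⟨i', hi', j', h2, h3⟩ := hIc i1 h1 j hj
        exact ⟨i', mem_insert_of_mem hi', j', h2, h3⟩
    have hcard : (insert i I).card = I.card + 1 := card_insert_of_notMem hi
    rcases Nat.lt_or_ge (I.card + 1) T with h | h
    · have := hmax (insert i I) ⟨by omega, hcl⟩
      omega
    · exact hA (insert i I) (by omega) hcl
  let t : I → Finset (Fin n) := fun i => univ.image (fun j => (c i).1 j)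
  have hall : ∀ s : Finset I, s.card ≤ (s.biUnion t).card := by
    intro s
    by_contra hcon
    push Not at hcon
    have hsI : s.card ≤ I.card := by
      simpa using card_le_univ s
    obtain ⟨V, hV1, -, hV3⟩ := exists_subsuperset_card_eq (subset_univ (s.biUnion t))
      (n := s.card) hcon.le (by simp only [card_univ, Fintype.card_fin]; omega)
    refine hB (s.map (Function.Embedding.subtype _)) V ?_ ?_ ?_ ?_
    · rw [card_map]; omega
    · rw [card_map]; omega
    · rw [card_map]; exact hV3
    · intro i hi j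
      obtain ⟨i0, hi0, rfl⟩ := mem_map.mp hi
      apply hV1
      exact mem_biUnion.mpr ⟨i0, hi0, mem_image.mpr ⟨j, mem_univ _, rfl⟩⟩
  obtain ⟨f, hfinj, hf⟩ := (all_card_le_biUnion_card_iff_exists_injective t).mp hall
  have hg : ∀ i : I, ∃ j, (c i).1 j = f i := by
    intro i
    obtain ⟨j, -, hj⟩ := mem_image.mp (hf i)
    exact ⟨j, hj⟩
  choose g hg using hg
  refine ⟨fun v => if h : ∃ i : I, f i = v then (c (h.choose : I)).2 (g h.choose) else true, ?_⟩
  intro i
  by_cases hi : i ∈ I
  · refine ⟨g ⟨i, hi⟩, ?_⟩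
    have hex : ∃ i' : I, f i' = (c i).1 (g ⟨i, hi⟩) := ⟨⟨i, hi⟩, (hg ⟨i, hi⟩).symm⟩
    have h1 : hex.choose = ⟨i, hi⟩ := by
      apply hfinj
      rw [hex.choose_spec]
      exact hg ⟨i, hi⟩
    simp only [dif_pos hex]
    rw [h1]
  · obtain ⟨j, hj1, hj2⟩ := hout i hi
    refine ⟨j, ?_⟩
    by_cases hex : ∃ i' : I, f i' = (c i).1 j
    · simp only [dif_pos hex]
      rw [hj1]
      by_contra hne
      have hfalse : (c (hex.choose : I)).2 (g hex.choose) = false := by
        simpa using hne
      refine hj2 _ hex.choose.2 _ hfalse ?_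
      rw [hg, hex.choose_spec]
    · simp only [dif_neg hex]
      exact hj1.symm

end Pool.Agent.Lib.MP_1887ad_co
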