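import Mathlib
import Pool.Agent.Lib.MP_1887ad_co.Det

/-! Two-choice random k-SAT: counting lemmas. -/

set_option autoImplicit false
set_option maxHeartbeats 400000
open Classical Finset

namespace Pool.Agent.Lib.MP_1887ad_co

/-- An event depending only on the coordinates in `I`. -/
theorem card_restrict {ι X : Type} [Fintype ι] [Fintype X] (I : Finset ι)
    (E : Finset (I → X)) (q : ℝ)
    (h : (E.card : ℝ) ≤ q * (Fintype.card X : ℝ) ^ I.card)
    (S : Finset (ι → X)) (hS : ∀ ω ∈ S, (fun i : I => ω i) ∈ E) :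
    (S.card : ℝ) ≤ q * (Fintype.card X : ℝ) ^ Fintype.card ι := by
  have h1 : S.card ≤ (E ×ˢ (univ : Finset ({i // i ∉ I} → X))).card := by
    apply card_le_card_of_injOn (fun ω => (fun i : I => ω i, fun i : {i // i ∉ I} => ω i))
    · intro ω hω
      simp only [coe_product, coe_univ, Set.mem_prod, Set.mem_univ, and_true]
      exact hS ω hω
    · intro ω _ ω' _ hh
      simp only [Prod.mk.injEq] at hh
      funext i
      by_cases hi : i ∈ I
      · exact congrFun hh.1 ⟨i, hi⟩
      · exact congrFun hh.2 ⟨i, hi⟩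
  rw [card_product, card_univ, Fintype.card_fun] at h1
  have h2 : Fintype.card {i // i ∉ I} = Fintype.card ι - I.card := by
    rw [Fintype.card_subtype_compl]
    simp
  have h3 : I.card ≤ Fintype.card ι := card_le_univ I
  rw [h2] at h1
  calc (S.card : ℝ)
      ≤ (E.card : ℝ) * (Fintype.card X : ℝ) ^ (Fintype.card ι - I.card) := by
        exact_mod_cast h1
    _ ≤ q * (Fintype.card X : ℝ) ^ I.card * (Fintype.card X : ℝ) ^ (Fintype.card ι - I.card) := by
        gcongr
    _ = q * (Fintype.card X : ℝ) ^ Fintype.card ι := by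
        rw [mul_assoc, ← pow_add]
        congr 2
        omega

/-- Functions whose values on `P` all repeat values taken off `P`. -/
theorem card_repeat {X : Type} [Fintype X] (n : ℕ) (P : Finset X) (S : Finset (X → Fin n))
    (hS : ∀ f ∈ S, ∀ x ∈ P, ∃ y, y ∉ P ∧ f y = f x) :
    S.card ≤ n ^ (Fintype.card X - P.card) * (Fintype.card X) ^ P.card := by
  let φ : ({x // x ∉ P} → Fin n) × (P → {x // x ∉ P}) → (X → Fin n) :=
    fun gh x => if hx : x ∈ P then gh.1 (gh.2 ⟨x, hx⟩) else gh.1 ⟨x, hx⟩
  have h1 : S ⊆ univ.image φ := by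
    intro f hf
    choose y hy1 hy2 using hS f hf
    refine mem_image.mpr ⟨(fun x => f x, fun x => ⟨y x x.2, hy1 x x.2⟩), mem_univ _, ?_⟩
    funext x
    by_cases hx : x ∈ P
    · simp only [φ, dif_pos hx]
      exact hy2 x hx
    · simp only [φ, dif_neg hx]
  have h2 := (card_le_card h1).trans card_image_le
  rw [card_univ, Fintype.card_prod, Fintype.card_fun, Fintype.card_fun] at h2
  have h3 : Fintype.card {x // x ∉ P} = Fintype.card X - P.card := by
    rw [Fintype.card_subtype_compl]
    simp
  rw [h3] at h2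
  simp only [Fintype.card_fin, Fintype.card_coe] at h2
  refine h2.trans ?_
  gcongr
  exact Nat.sub_le _ _

theorem card_repeat_real {X α : Type} [Fintype X] (n : ℕ) (P : Finset X) (θ : ℝ)
    (hθ : (Fintype.card X : ℝ) ≤ θ * n) (A : Finset α) (vr : α → X → Fin n)
    (hinj : Set.InjOn vr A) (hA : ∀ a ∈ A, ∀ x ∈ P, ∃ y, y ∉ P ∧ vr a y = vr a x) :
    (A.card : ℝ) ≤ (n : ℝ) ^ (Fintype.card X) * θ ^ P.card := by
  have h1 := card_repeat n P (A.image vr) (by
    intro f hf
    obtain ⟨a, ha, rfl⟩ := mem_image.mp hf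
    exact hA a ha)
  rw [card_image_of_injOn hinj] at h1
  have h3 : P.card ≤ Fintype.card X := card_le_univ P
  calc (A.card : ℝ)
      ≤ (n : ℝ) ^ (Fintype.card X - P.card) * (Fintype.card X : ℝ) ^ P.card := by
        exact_mod_cast h1
    _ ≤ (n : ℝ) ^ (Fintype.card X - P.card) * (θ * n) ^ P.card := by gcongr
    _ = (n : ℝ) ^ (Fintype.card X) * θ ^ P.card := by
        rw [mul_pow, mul_comm (θ ^ _), ← mul_assoc, ← pow_add]
        congr 2
        omega

theorem sum_pow_npos (k : ℕ) (ρ : ℝ) :
    ∑ s : Fin k → Bool, ρ ^ npos s = (1 + ρ) ^ k := by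
  have h1 : ∀ s : Fin k → Bool, ρ ^ npos s = ∏ j, (if s j = true then ρ else 1) := by
    intro s
    rw [prod_ite]
    simp [npos]
  simp_rw [h1]
  have h2 := prod_univ_sum (fun _ : Fin k => (univ : Finset Bool))
    (fun _ b => if b = true then ρ else 1)
  rw [Fintype.piFinset_univ] at h2
  rw [← h2]
  simp [add_comm]

/-- Positive positions of chosen clauses. -/
def posSet {ι : Type} [Fintype ι] {k : ℕ} (σ : ι → (Fin k → Bool) × (Fin k → Bool)) :
    Finset (ι × Bool × Fin k) :=
  univ.filter (fun x => x.2.1 = rl (σ x.1) ∧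
    (if x.2.1 then (σ x.1).2 else (σ x.1).1) x.2.2 = true)

theorem card_posSet {ι : Type} [Fintype ι] {k : ℕ} (σ : ι → (Fin k → Bool) × (Fin k → Bool)) :
    ∑ i, (npos (σ i).1 + npos (σ i).2) ≤ 2 * (posSet σ).card := by
  rw [posSet, card_filter, Fintype.sum_prod_type, mul_sum]
  apply sum_le_sum
  intro i _
  rw [Fintype.sum_prod_type, Fintype.sum_bool]
  by_cases h : npos (σ i).1 < npos (σ i).2
  · have hr : rl (σ i) = true := by simp [rl, h]
    simp only [hr, true_and, if_true, Bool.false_eq_true, false_and, if_false, sum_const_zero,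
      add_zero]
    rw [← card_filter]
    change _ ≤ 2 * npos (σ i).2
    omega
  · have hr : rl (σ i) = false := by simp [rl, h]
    simp only [hr, true_and, Bool.true_eq_false, false_and, if_false, sum_const_zero,
      zero_add, Bool.false_eq_true]
    rw [← card_filter]
    change _ ≤ 2 * npos (σ i).1
    omega

/-- Count of closed configurations on an index set. -/
theorem card_closed {ι : Type} [Fintype ι] (k n : ℕ) (ρ : ℝ) (hρ0 : 0 ≤ ρ) (hρ1 : ρ ≤ 1)
    (hθ : (Fintype.card ι * (2 * k) : ℝ) ≤ ρ ^ 2 * n) (A : Finset (ι → Cl k n × Cl k n))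
    (hA : ∀ η ∈ A, Closed (fun i => ch (η i)) univ) :
    (A.card : ℝ) ≤ ((n : ℝ) ^ (2 * k) * (1 + ρ) ^ (2 * k)) ^ Fintype.card ι := by
  let sg : (ι → Cl k n × Cl k n) → (ι → (Fin k → Bool) × (Fin k → Bool)) :=
    fun η i => ((η i).1.2, (η i).2.2)
  let vr : (ι → Cl k n × Cl k n) → (ι × Bool × Fin k → Fin n) :=
    fun η x => (if x.2.1 then (η x.1).2 else (η x.1).1).1 x.2.2
  have hcardX : Fintype.card (ι × Bool × Fin k) = Fintype.card ι * (2 * k) := by
    simp
  have hfib : ∀ σ : ι → (Fin k → Bool) × (Fin k → Bool),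
      ((A.filter (fun η => sg η = σ)).card : ℝ)
        ≤ (n : ℝ) ^ (Fintype.card ι * (2 * k)) * ∏ i, (ρ ^ npos (σ i).1 * ρ ^ npos (σ i).2) := by
    intro σ
    have h2 := card_repeat_real n (posSet σ) (ρ ^ 2) (by rw [hcardX]; push_cast; exact hθ)
      (A.filter (fun η => sg η = σ)) vr ?_ ?_
    · rw [hcardX] at h2
      refine h2.trans ?_
      gcongr
      simp_rw [← pow_add]
      rw [prod_pow_eq_pow_sum, ← pow_mul]
      exact pow_le_pow_of_le_one hρ0 hρ1 (card_posSet σ)
    · intro η hη η' hη' hh
      have hs : sg η = sg η' :=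
        (mem_filter.mp (mem_coe.mp hη)).2.trans (mem_filter.mp (mem_coe.mp hη')).2.symm
      funext i
      have hs1 := congrFun hs i
      simp only [sg, Prod.mk.injEq] at hs1
      refine Prod.ext (Prod.ext ?_ hs1.1) (Prod.ext ?_ hs1.2)
      · ext j
        have := congrFun hh (i, false, j)
        simp only [vr, Bool.false_eq_true, if_false] at this
        rw [this]
      · ext j
        have := congrFun hh (i, true, j)
        simp only [vr, if_true] at this
        rw [this]
    · intro η hη
      obtain ⟨hη1, rfl⟩ := mem_filter.mp hη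
      have hcl := hA η hη1
      rintro ⟨i, b, j⟩ hx
      simp only [posSet, mem_filter, mem_univ, true_and] at hx
      obtain ⟨hb, hs⟩ := hx
      have hb' : b = rule (η i) := hb
      have hs' : (ch (η i)).2 j = true := by
        rw [← hs, ch, ← hb']
        cases b <;> rfl
      obtain ⟨i', -, j', h2, h3⟩ := hcl i (mem_univ _) j hs'
      refine ⟨(i', rule (η i'), j'), ?_, ?_⟩
      · simp only [posSet, mem_filter, mem_univ, true_and, not_and]
        intro _ hh
        have : (ch (η i')).2 j' = true := by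
          rw [← hh, ch]
          cases rule (η i') <;> rfl
        rw [h2] at this
        exact absurd this (by simp)
      · change (ch (η i')).1 j' = (if b then (η i).2 else (η i).1).1 j
        rw [h3, hb']
        rfl
  have hsum : A.card = ∑ σ : ι → (Fin k → Bool) × (Fin k → Bool),
      (A.filter (fun η => sg η = σ)).card :=
    card_eq_sum_card_fiberwise (fun _ _ => mem_coe.mpr (mem_univ _))
  rw [hsum]
  push_cast
  refine (sum_le_sum (fun σ _ => hfib σ)).trans ?_
  rw [← mul_sum]
  have h2 := prod_univ_sum (fun _ : ι => (univ : Finset ((Fin k → Bool) × (Fin k → Bool))))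
    (fun _ s => ρ ^ npos s.1 * ρ ^ npos s.2)
  rw [Fintype.piFinset_univ] at h2
  rw [← h2, Fintype.sum_prod_type]
  simp_rw [← mul_sum]
  rw [← sum_mul, sum_pow_npos, prod_const, card_univ]
  apply le_of_eq
  ring

/-- Clauses with all variables inside `V`. -/
theorem card_inside {k n : ℕ} (V : Finset (Fin n)) (G : Finset (Cl k n × Cl k n))
    (hG : ∀ p ∈ G, ∀ j, (ch p).1 j ∈ V) :
    G.card ≤ 2 * (V.card ^ k * 2 ^ k * Fintype.card (Cl k n)) := by
  set E := univ.filter (fun c : Cl k n => ∀ j, c.1 j ∈ V) with hE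
  have h1 : E.card ≤ V.card ^ k * 2 ^ k := by
    have : E.card ≤ ((Fintype.piFinset (fun _ : Fin k => V)) ×ˢ
        (univ : Finset (Fin k → Bool))).card := by
      apply card_le_card_of_injOn (fun c => (fun j => c.1 j, c.2))
      · intro c hc
        simp only [hE, coe_filter, mem_univ, true_and, Set.mem_ofPred_eq] at hc
        simp only [coe_product, coe_univ, Set.mem_prod, mem_coe, Fintype.mem_piFinset,
          Set.mem_univ, and_true]
        exact hc
      · intro c _ c' _ hh
        simp only [Prod.mk.injEq] at hh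
        refine Prod.ext ?_ hh.2
        ext j
        rw [congrFun hh.1 j]
    simpa [card_product, Fintype.card_piFinset] using this
  have h2 : G ⊆ (E ×ˢ univ) ∪ (univ ×ˢ E) := by
    intro p hp0
    have hp := hG p hp0
    simp only [ch] at hp
    simp only [mem_union, mem_product, mem_univ, and_true, true_and, hE, mem_filter]
    cases h : rule p
    · left
      simpa [h] using hp
    · right
      simpa [h] using hp
  refine (card_le_card h2).trans ((card_union_le _ _).trans ?_)
  rw [card_product, card_product, card_univ]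
  nlinarith [Nat.mul_le_mul_right (Fintype.card (Cl k n)) h1]

theorem card_Cl (k n : ℕ) : Fintype.card (Cl k n) = n.descFactorial k * 2 ^ k := by
  simp [Fintype.card_embedding_eq]

end Pool.Agent.Lib.MP_1887ad_co
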