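import Mathlib
import Pool.Agent.Lib.MP_1887ad_co.Count

/-! Two-choice random k-SAT: the first-moment bounds. -/

set_option autoImplicit false
set_option maxHeartbeats 400000
open Classical Finset

namespace Pool.Agent.Lib.MP_1887ad_co

theorem exp_one_le_three : Real.exp 1 ≤ 3 := by
  have := Real.exp_one_lt_d9
  linarith

theorem choose_le (a t : ℕ) (ht : 0 < t) : (a.choose t : ℝ) ≤ (3 * a / t) ^ t := by
  have h1 : (a.choose t : ℝ) ≤ (a : ℝ) ^ t / (t.factorial : ℝ) := by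
    exact_mod_cast Nat.choose_le_pow_div (α := ℝ) t a
  have h2 : (t : ℝ) ^ t / (t.factorial : ℝ) ≤ Real.exp t :=
    Real.pow_div_factorial_le_exp _ (Nat.cast_nonneg t) t
  have h3 : Real.exp t ≤ 3 ^ t := by
    have : Real.exp t = Real.exp 1 ^ t := by
      rw [← Real.exp_nat_mul]; simp
    rw [this]
    exact pow_le_pow_left₀ (Real.exp_pos 1).le exp_one_le_three t
  have htpos : (0 : ℝ) < t := by exact_mod_cast ht
  have hf : (0 : ℝ) < t.factorial := by exact_mod_cast Nat.factorial_pos t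
  have h4 : (a : ℝ) ^ t / (t.factorial : ℝ)
      = ((a : ℝ) / t) ^ t * ((t : ℝ) ^ t / (t.factorial : ℝ)) := by
    rw [div_pow]
    field_simp
  rw [h4] at h1
  calc (a.choose t : ℝ) ≤ ((a : ℝ) / t) ^ t * 3 ^ t := by
        refine h1.trans ?_
        gcongr
        exact h2.trans h3
    _ = (3 * a / t) ^ t := by
        rw [← mul_pow]
        congr 1
        ring

theorem pow_le_two_desc (k n : ℕ) (hk : 0 < k) (hn : 2 * k ^ 2 ≤ n) :
    (n : ℝ) ^ k ≤ 2 * (n.descFactorial k : ℝ) := by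
  have hkn : k ≤ n := by nlinarith
  have hnpos : (0 : ℝ) < n := by
    have : 0 < n := by omega
    exact_mod_cast this
  have h1 : (n - k) ^ k ≤ n.descFactorial k :=
    (Nat.pow_le_pow_left (by omega) k).trans (Nat.pow_sub_le_descFactorial n k)
  have h2 : ((n : ℝ) - k) ^ k ≤ (n.descFactorial k : ℝ) := by
    rw [← Nat.cast_sub hkn]
    exact_mod_cast h1
  have hkn' : (k : ℝ) / n ≤ 1 := by
    rw [div_le_one hnpos]
    exact_mod_cast hkn
  have h3 : 1 + (k : ℝ) * (-((k : ℝ) / n)) ≤ (1 + -((k : ℝ) / n)) ^ k :=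
    one_add_mul_le_pow (by linarith) k
  have h4 : (k : ℝ) * ((k : ℝ) / n) ≤ 1 / 2 := by
    rw [← mul_div_assoc, div_le_iff₀ hnpos]
    have : (2 : ℝ) * (k : ℝ) ^ 2 ≤ n := by exact_mod_cast hn
    nlinarith
  have h5 : ((n : ℝ) - k) ^ k = (n : ℝ) ^ k * (1 + -((k : ℝ) / n)) ^ k := by
    rw [← mul_pow]
    congr 1
    field_simp
    ring
  have h6 : (0 : ℝ) < (n : ℝ) ^ k := pow_pos hnpos k
  nlinarith

theorem one_add_inv_pow (k : ℕ) (hk : 0 < k) : (1 + 1 / (k : ℝ)) ^ (2 * k) ≤ 9 := by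
  have hkpos : (0 : ℝ) < k := by exact_mod_cast hk
  have h1 : (1 + 1 / (k : ℝ)) ^ k ≤ 3 := by
    calc (1 + 1 / (k : ℝ)) ^ k ≤ (Real.exp (1 / k)) ^ k := by
          apply pow_le_pow_left₀ (by positivity)
          have := Real.add_one_le_exp (1 / (k : ℝ))
          linarith
      _ = Real.exp 1 := by
          rw [← Real.exp_nat_mul]
          congr 1
          field_simp
      _ ≤ 3 := exp_one_le_three
  rw [mul_comm, pow_mul]
  have h0 : 0 ≤ (1 + 1 / (k : ℝ)) ^ k := by positivity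
  nlinarith

theorem card_pair (k n : ℕ) : (Fintype.card (Cl k n × Cl k n) : ℝ)
    = (n.descFactorial k : ℝ) ^ 2 * 4 ^ k := by
  rw [Fintype.card_prod, card_Cl]
  push_cast
  rw [show (4 : ℝ) = 2 * 2 by norm_num, mul_pow]
  ring

/-- Bound on the event that some `T` steps form a closed set. -/
theorem badA_bound (k n m T : ℕ) (hk : 0 < k) (hn : 2 * k ^ 2 ≤ n) (hT0 : 0 < T)
    (hT : 2 * k ^ 3 * T ≤ n) (hm : 216 * m ≤ 4 ^ k * T)
    (U : Finset (Fin m → Cl k n × Cl k n))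
    (hU : ∀ ω ∈ U, ∃ I : Finset (Fin m), I.card = T ∧ Closed (fun i => ch (ω i)) I) :
    (U.card : ℝ) ≤ (1 / 2) ^ T * (Fintype.card (Cl k n × Cl k n) : ℝ) ^ m := by
  have hkpos : (0 : ℝ) < k := by exact_mod_cast hk
  have hTpos : (0 : ℝ) < T := by exact_mod_cast hT0
  have hsub : U ⊆ (powersetCard T (univ : Finset (Fin m))).biUnion
      (fun I => U.filter (fun ω => Closed (fun i => ch (ω i)) I)) := by
    intro ω hω
    obtain ⟨I, hI1, hI2⟩ := hU ω hω
    exact mem_biUnion.mpr ⟨I, mem_powersetCard.mpr ⟨subset_univ _, hI1⟩,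
      mem_filter.mpr ⟨hω, hI2⟩⟩
  have hone : ∀ I ∈ powersetCard T (univ : Finset (Fin m)),
      ((U.filter (fun ω => Closed (fun i => ch (ω i)) I)).card : ℝ)
        ≤ (36 / 4 ^ k) ^ T * (Fintype.card (Cl k n × Cl k n) : ℝ) ^ m := by
    intro I hI
    have hIT : I.card = T := (mem_powersetCard.mp hI).2
    have h1 := card_restrict I
      (univ.filter (fun η : I → Cl k n × Cl k n => Closed (fun i => ch (η i)) univ))
      ((36 / 4 ^ k) ^ T) ?_ (U.filter (fun ω => Closed (fun i => ch (ω i)) I)) ?_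
    · simpa only [Fintype.card_fin] using h1
    · have h2 := card_closed (ι := I) k n (1 / k) (by positivity)
        (by rw [div_le_one hkpos]; exact_mod_cast hk) ?_
        (univ.filter (fun η : I → Cl k n × Cl k n => Closed (fun i => ch (η i)) univ))
        (fun η hη => (mem_filter.mp hη).2)
      · refine h2.trans ?_
        rw [Fintype.card_coe, hIT, ← mul_pow (36 / 4 ^ k : ℝ)]
        apply pow_le_pow_left₀ (by positivity)
        rw [card_pair]
        have h3 := pow_le_two_desc k n hk hn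
        have h4 := one_add_inv_pow k hk
        have h5 : (n : ℝ) ^ (2 * k) ≤ 4 * (n.descFactorial k : ℝ) ^ 2 := by
          rw [mul_comm 2 k, pow_mul]
          have h0 : 0 ≤ (n : ℝ) ^ k := by positivity
          nlinarith
        calc (n : ℝ) ^ (2 * k) * (1 + 1 / (k : ℝ)) ^ (2 * k)
            ≤ (4 * (n.descFactorial k : ℝ) ^ 2) * 9 := by gcongr
          _ = 36 / 4 ^ k * ((n.descFactorial k : ℝ) ^ 2 * 4 ^ k) := by
            field_simp
            ring
      · rw [Fintype.card_coe, hIT]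
        have h3 : (2 : ℝ) * (k : ℝ) ^ 3 * T ≤ n := by exact_mod_cast hT
        rw [div_pow, one_pow, div_mul_eq_mul_div, le_div_iff₀ (by positivity)]
        nlinarith
    · intro ω hω
      have hc := (mem_filter.mp hω).2
      refine mem_filter.mpr ⟨mem_univ _, ?_⟩
      intro i _ j hj
      obtain ⟨i', hi', j', h2, h3⟩ := hc i i.2 j hj
      exact ⟨⟨i', hi'⟩, mem_univ _, j', h2, h3⟩
  have h1 : (U.card : ℝ) ≤ ∑ I ∈ powersetCard T (univ : Finset (Fin m)),
      ((U.filter (fun ω => Closed (fun i => ch (ω i)) I)).card : ℝ) := by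
    exact_mod_cast (card_le_card hsub).trans card_biUnion_le
  refine h1.trans ((sum_le_sum hone).trans ?_)
  rw [sum_const, card_powersetCard, card_univ, Fintype.card_fin, nsmul_eq_mul, ← mul_assoc]
  gcongr
  calc (m.choose T : ℝ) * (36 / 4 ^ k) ^ T ≤ (3 * m / T) ^ T * (36 / 4 ^ k) ^ T := by
        gcongr
        exact choose_le m T hT0
    _ = (3 * m / T * (36 / 4 ^ k)) ^ T := by rw [mul_pow]
    _ ≤ (1 / 2) ^ T := by
        apply pow_le_pow_left₀ (by positivity)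
        have h3 : (216 : ℝ) * m ≤ 4 ^ k * T := by exact_mod_cast hm
        rw [div_mul_div_comm, div_le_div_iff₀ (by positivity) (by positivity)]
        nlinarith

theorem sq_le_four_pow (t : ℕ) : (t : ℝ) ^ 2 ≤ 4 ^ t := by
  have h1 : (t : ℝ) ≤ 2 ^ t := by exact_mod_cast (Nat.lt_two_pow_self (n := t)).le
  rw [show (4 : ℝ) = 2 ^ 2 by norm_num, ← pow_mul, mul_comm, pow_mul]
  gcongr

/-- Bound on the event that `t` steps have their chosen clauses inside `t` variables. -/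
theorem badB_one (k n m t : ℕ) (hk : 4 ≤ k) (hn : 2 * k ^ 2 ≤ n) (ht0 : 0 < t)
    (ht : 4 * t ≤ n) (hm : 36864 * m ≤ 4 ^ k * n)
    (U : Finset (Fin m → Cl k n × Cl k n))
    (hU : ∀ ω ∈ U, ∃ (I : Finset (Fin m)) (V : Finset (Fin n)), I.card = t ∧ V.card = t ∧
      ∀ i ∈ I, ∀ j, (ch (ω i)).1 j ∈ V) :
    (U.card : ℝ) ≤ (1 / (n : ℝ) ^ 2) * (Fintype.card (Cl k n × Cl k n) : ℝ) ^ m := by
  have htpos : (0 : ℝ) < t := by exact_mod_cast ht0
  have hnpos : (0 : ℝ) < n := by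
    have : 0 < n := by omega
    exact_mod_cast this
  have hsub : U ⊆ (powersetCard t (univ : Finset (Fin m)) ×ˢ
      powersetCard t (univ : Finset (Fin n))).biUnion
      (fun IV => U.filter (fun ω => ∀ i ∈ IV.1, ∀ j, (ch (ω i)).1 j ∈ IV.2)) := by
    intro ω hω
    obtain ⟨I, V, hI, hV, h⟩ := hU ω hω
    exact mem_biUnion.mpr ⟨(I, V), mem_product.mpr ⟨mem_powersetCard.mpr ⟨subset_univ _, hI⟩,
      mem_powersetCard.mpr ⟨subset_univ _, hV⟩⟩, mem_filter.mpr ⟨hω, h⟩⟩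
  have hone : ∀ IV ∈ (powersetCard t (univ : Finset (Fin m)) ×ˢ
      powersetCard t (univ : Finset (Fin n))),
      ((U.filter (fun ω => ∀ i ∈ IV.1, ∀ j, (ch (ω i)).1 j ∈ IV.2)).card : ℝ)
        ≤ (4 * ((t : ℝ) / n) ^ k) ^ t * (Fintype.card (Cl k n × Cl k n) : ℝ) ^ m := by
    rintro ⟨I, V⟩ hIV
    have hI : I.card = t := (mem_powersetCard.mp (mem_product.mp hIV).1).2
    have hV : V.card = t := (mem_powersetCard.mp (mem_product.mp hIV).2).2
    have hG := card_inside V (univ.filter (fun p : Cl k n × Cl k n => ∀ j, (ch p).1 j ∈ V))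
      (fun p hp => (mem_filter.mp hp).2)
    have h1 := card_restrict I
      (Fintype.piFinset (fun _ : I =>
        univ.filter (fun p : Cl k n × Cl k n => ∀ j, (ch p).1 j ∈ V)))
      ((4 * ((t : ℝ) / n) ^ k) ^ t) ?_
      (U.filter (fun ω => ∀ i ∈ I, ∀ j, (ch (ω i)).1 j ∈ V)) ?_
    · simpa only [Fintype.card_fin] using h1
    · rw [Fintype.card_piFinset, prod_const, card_univ, Fintype.card_coe, hI, ← mul_pow]
      push_cast
      apply pow_le_pow_left₀ (by positivity)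
      rw [hV, card_Cl] at hG
      have hG' : ((univ.filter (fun p : Cl k n × Cl k n => ∀ j, (ch p).1 j ∈ V)).card : ℝ)
          ≤ 2 * ((t : ℝ) ^ k * 2 ^ k * ((n.descFactorial k : ℝ) * 2 ^ k)) := by
        exact_mod_cast hG
      refine hG'.trans ?_
      rw [card_pair]
      have h3 := pow_le_two_desc k n (by omega) hn
      have h4 : (4 : ℝ) ^ k = 2 ^ k * 2 ^ k := by
        rw [← mul_pow]; norm_num
      rw [h4, div_pow]
      have h5 : (0 : ℝ) < (n : ℝ) ^ k := pow_pos hnpos k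
      have h6 : 2 * ((t : ℝ) ^ k * 2 ^ k * ((n.descFactorial k : ℝ) * 2 ^ k))
          = 2 * ((t : ℝ) ^ k / (n : ℝ) ^ k) * ((n.descFactorial k : ℝ) * (2 ^ k * 2 ^ k))
            * (n : ℝ) ^ k := by
        field_simp
      rw [h6]
      calc 2 * ((t : ℝ) ^ k / (n : ℝ) ^ k) * ((n.descFactorial k : ℝ) * (2 ^ k * 2 ^ k))
            * (n : ℝ) ^ k
          ≤ 2 * ((t : ℝ) ^ k / (n : ℝ) ^ k) * ((n.descFactorial k : ℝ) * (2 ^ k * 2 ^ k))
            * (2 * (n.descFactorial k : ℝ)) := by gcongr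
        _ = _ := by ring
    · intro ω hω
      have hc := (mem_filter.mp hω).2
      refine Fintype.mem_piFinset.mpr ?_
      intro i
      exact mem_filter.mpr ⟨mem_univ _, hc i i.2⟩
  have h1 : (U.card : ℝ) ≤ ∑ IV ∈ (powersetCard t (univ : Finset (Fin m)) ×ˢ
      powersetCard t (univ : Finset (Fin n))),
      ((U.filter (fun ω => ∀ i ∈ IV.1, ∀ j, (ch (ω i)).1 j ∈ IV.2)).card : ℝ) := by
    exact_mod_cast (card_le_card hsub).trans card_biUnion_le
  refine h1.trans ((sum_le_sum hone).trans ?_)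
  rw [sum_const, card_product, card_powersetCard, card_powersetCard, card_univ, card_univ,
    Fintype.card_fin, Fintype.card_fin, nsmul_eq_mul, ← mul_assoc]
  gcongr
  push_cast
  have hx : (t : ℝ) / n ≤ 1 / 4 := by
    have : (4 : ℝ) * t ≤ n := by exact_mod_cast ht
    rw [div_le_div_iff₀ hnpos (by norm_num)]
    linarith
  have hx0 : 0 < (t : ℝ) / n := by positivity
  obtain ⟨l, rfl⟩ : ∃ l, k = l + 4 := ⟨k - 4, by omega⟩
  have hbase : 3 * (m : ℝ) / t * (3 * n / t) * (4 * ((t : ℝ) / n) ^ (l + 4))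
      ≤ ((t : ℝ) / n) ^ 2 / 4 := by
    have h2 : 3 * (m : ℝ) / t * (3 * n / t) * (4 * ((t : ℝ) / n) ^ (l + 4))
        = 36 * ((m : ℝ) / n) * ((t : ℝ) / n) ^ l * ((t : ℝ) / n) ^ 2 := by
      rw [pow_add]
      field_simp
      ring
    have h3 : ((t : ℝ) / n) ^ l ≤ (1 / 4) ^ l := pow_le_pow_left₀ hx0.le hx l
    have h4 : (m : ℝ) / n ≤ 4 ^ (l + 4) / 36864 := by
      have : (36864 : ℝ) * m ≤ 4 ^ (l + 4) * n := by exact_mod_cast hm
      rw [div_le_div_iff₀ hnpos (by norm_num)]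
      linarith
    rw [h2]
    calc 36 * ((m : ℝ) / n) * ((t : ℝ) / n) ^ l * ((t : ℝ) / n) ^ 2
        ≤ 36 * (4 ^ (l + 4) / 36864) * (1 / 4) ^ l * ((t : ℝ) / n) ^ 2 := by gcongr
      _ = ((t : ℝ) / n) ^ 2 / 4 := by
        rw [pow_add, one_div, inv_pow]
        field_simp
        norm_num
  calc (m.choose t : ℝ) * (n.choose t : ℝ) * (4 * ((t : ℝ) / n) ^ (l + 4)) ^ t
      ≤ (3 * m / t) ^ t * (3 * n / t) ^ t * (4 * ((t : ℝ) / n) ^ (l + 4)) ^ t := by
        gcongr
        · exact choose_le m t ht0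
        · exact choose_le n t ht0
    _ = (3 * (m : ℝ) / t * (3 * n / t) * (4 * ((t : ℝ) / n) ^ (l + 4))) ^ t := by
        rw [mul_pow (3 * (m : ℝ) / t * (3 * n / t)), mul_pow (3 * (m : ℝ) / t)]
    _ ≤ (((t : ℝ) / n) ^ 2 / 4) ^ t := pow_le_pow_left₀ (by positivity) hbase t
    _ = (((t : ℝ) / n) ^ 2) ^ t / 4 ^ t := by rw [div_pow]
    _ ≤ ((t : ℝ) / n) ^ 2 / 4 ^ t := by
        gcongr
        apply pow_le_of_le_one (by positivity) _ (by omega)
        apply pow_le_one₀ hx0.le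
        linarith
    _ ≤ 1 / (n : ℝ) ^ 2 := by
        rw [div_pow, div_div, div_le_div_iff₀ (by positivity) (by positivity)]
        have := sq_le_four_pow t
        have h0 : 0 ≤ (n : ℝ) ^ 2 := by positivity
        nlinarith

/-- The main estimate: the two-choice formula is unsatisfiable with small probability. -/
theorem unsat_bound (k n m : ℕ) (hk : 4 ≤ k) (hn : 2 * k ^ 3 ≤ n)
    (hm : 864 * k ^ 3 * m ≤ 4 ^ k * n)
    (U : Finset (Fin m → Cl k n × Cl k n))
    (hU : ∀ ω ∈ U, ¬ ∃ a : Fin n → Bool, ∀ i, ∃ j, a ((ch (ω i)).1 j) = (ch (ω i)).2 j) :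
    (U.card : ℝ) ≤ ((1 / 2) ^ (n / (2 * k ^ 3)) + 1 / n) *
      (Fintype.card (Cl k n × Cl k n) : ℝ) ^ m := by
  set T := n / (2 * k ^ 3) with hTdef
  have hk3 : 64 ≤ k ^ 3 := by
    calc 64 = 4 ^ 3 := by norm_num
      _ ≤ k ^ 3 := Nat.pow_le_pow_left hk 3
  have hT0 : 0 < T := Nat.div_pos hn (by omega)
  have hT1 : 2 * k ^ 3 * T ≤ n := Nat.mul_div_le n _
  have hT2 : n < 2 * k ^ 3 * (T + 1) := Nat.lt_mul_div_succ n (by omega)
  have hT3 : n ≤ 4 * k ^ 3 * T := by nlinarith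
  have hn2 : 2 * k ^ 2 ≤ n := by
    have : k ^ 2 ≤ k ^ 3 := Nat.pow_le_pow_right (by omega) (by omega)
    omega
  have hT4 : 4 * T ≤ n := by nlinarith
  have hnpos : (0 : ℝ) < n := by
    have : 0 < n := by omega
    exact_mod_cast this
  have hm1 : 216 * m ≤ 4 ^ k * T := by
    have h1 : k ^ 3 * (4 * (216 * m)) ≤ k ^ 3 * (4 * (4 ^ k * T)) := by
      calc k ^ 3 * (4 * (216 * m)) = 864 * k ^ 3 * m := by ring
        _ ≤ 4 ^ k * n := hm
        _ ≤ 4 ^ k * (4 * k ^ 3 * T) := Nat.mul_le_mul_left _ hT3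
        _ = _ := by ring
    have := Nat.le_of_mul_le_mul_left h1 (by omega)
    omega
  have hm2 : 36864 * m ≤ 4 ^ k * n := by
    refine le_trans ?_ hm
    apply Nat.mul_le_mul_right
    omega
  let UA := U.filter (fun ω => ∃ I : Finset (Fin m), I.card = T ∧ Closed (fun i => ch (ω i)) I)
  let UB := fun t : ℕ => U.filter (fun ω => ∃ (I : Finset (Fin m)) (V : Finset (Fin n)),
    I.card = t ∧ V.card = t ∧ ∀ i ∈ I, ∀ j, (ch (ω i)).1 j ∈ V)
  have hsub : U ⊆ UA ∪ (Icc 1 T).biUnion UB := by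
    intro ω hω
    by_contra hcon
    rw [mem_union, not_or] at hcon
    apply hU ω hω
    apply sat_of_not_bad (T := T) (fun i => ch (ω i)) hT0 (by omega)
    · intro I hI hc
      exact hcon.1 (mem_filter.mpr ⟨hω, I, hI, hc⟩)
    · intro I V h1 h2 h3 h4
      exact hcon.2 (mem_biUnion.mpr ⟨I.card, mem_Icc.mpr ⟨h1, h2⟩,
        mem_filter.mpr ⟨hω, I, V, rfl, h3, h4⟩⟩)
  have hA := badA_bound k n m T (by omega) hn2 hT0 hT1 hm1 UA (fun ω hω => (mem_filter.mp hω).2)
  have hB : ∀ t ∈ Icc 1 T, ((UB t).card : ℝ)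
      ≤ (1 / (n : ℝ) ^ 2) * (Fintype.card (Cl k n × Cl k n) : ℝ) ^ m := by
    intro t ht
    have := mem_Icc.mp ht
    exact badB_one k n m t hk hn2 (by omega) (by omega) hm2 (UB t)
      (fun ω hω => (mem_filter.mp hω).2)
  have h1 : (U.card : ℝ) ≤ UA.card + ∑ t ∈ Icc 1 T, ((UB t).card : ℝ) := by
    exact_mod_cast (card_le_card hsub).trans
      ((card_union_le _ _).trans (Nat.add_le_add_left card_biUnion_le _))
  have h2 := sum_le_sum hB
  rw [sum_const, Nat.card_Icc, nsmul_eq_mul, ← mul_assoc] at h2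
  have h3 : ((T + 1 - 1 : ℕ) : ℝ) * (1 / (n : ℝ) ^ 2) ≤ 1 / n := by
    have : (T : ℝ) ≤ n := by exact_mod_cast (by omega : T ≤ n)
    rw [Nat.add_sub_cancel, mul_one_div, div_le_div_iff₀ (by positivity) hnpos]
    nlinarith
  have h4 : (0 : ℝ) ≤ (Fintype.card (Cl k n × Cl k n) : ℝ) ^ m := by positivity
  rw [add_mul]
  refine h1.trans (add_le_add hA (h2.trans ?_))
  gcongr

end Pool.Agent.Lib.MP_1887ad_co
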