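import Mathlib
import Pool.Agent.Lib.MP_1887ad_co.Bound

/-! Two-choice random k-SAT: asymptotic statements. -/

set_option autoImplicit false
set_option maxHeartbeats 400000
open Classical Finset Filter

namespace Pool.Agent.Lib.MP_1887ad_co

/-- First-moment bound for uniformly random k-SAT. -/
theorem sat_bound (k n m : ℕ) (S : Finset (Fin m → Cl k n))
    (hS : ∀ F ∈ S, ∃ a : Fin n → Bool, ∀ i, ∃ j, a ((F i).1 j) = (F i).2 j) :
    (S.card : ℝ) ≤ 2 ^ n * (1 - 1 / 2 ^ k) ^ m * (Fintype.card (Cl k n) : ℝ) ^ m := by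
  let G : (Fin n → Bool) → Finset (Cl k n) :=
    fun a => univ.filter (fun c => ∃ j, a (c.1 j) = c.2 j)
  have hG : ∀ a, ((G a).card : ℝ) ≤ (1 - 1 / 2 ^ k) * (Fintype.card (Cl k n) : ℝ) := by
    intro a
    have h1 : n.descFactorial k ≤ (G a)ᶜ.card := by
      have h2 : (univ : Finset (Fin k ↪ Fin n)).card ≤ (G a)ᶜ.card := by
        apply card_le_card_of_injOn (fun v => (v, fun j => !a (v j)))
        · intro v _
          simp [G]
        · intro v _ v' _ hh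
          exact (Prod.mk.inj hh).1
      simpa [Fintype.card_embedding_eq] using h2
    have h3 := card_add_card_compl (G a)
    rw [card_Cl] at h3 ⊢
    have h4 : ((G a).card : ℝ) + (n.descFactorial k : ℝ) ≤ (n.descFactorial k : ℝ) * 2 ^ k := by
      have : (G a).card + n.descFactorial k ≤ n.descFactorial k * 2 ^ k := by omega
      exact_mod_cast this
    push_cast
    have h5 : (1 - 1 / 2 ^ k) * ((n.descFactorial k : ℝ) * 2 ^ k)
        = (n.descFactorial k : ℝ) * 2 ^ k - n.descFactorial k := by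
      field_simp
    linarith
  have hsub : S ⊆ (univ : Finset (Fin n → Bool)).biUnion
      (fun a => Fintype.piFinset (fun _ : Fin m => G a)) := by
    intro F hF
    obtain ⟨a, ha⟩ := hS F hF
    exact mem_biUnion.mpr ⟨a, mem_univ _, Fintype.mem_piFinset.mpr
      (fun i => mem_filter.mpr ⟨mem_univ _, ha i⟩)⟩
  have h1 : (S.card : ℝ) ≤ ∑ a : Fin n → Bool,
      ((Fintype.piFinset (fun _ : Fin m => G a)).card : ℝ) := by
    exact_mod_cast (card_le_card hsub).trans card_biUnion_le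
  have h2 : ∀ a ∈ (univ : Finset (Fin n → Bool)),
      ((Fintype.piFinset (fun _ : Fin m => G a)).card : ℝ)
        ≤ ((1 - 1 / 2 ^ k) * (Fintype.card (Cl k n) : ℝ)) ^ m := by
    intro a _
    rw [Fintype.card_piFinset, prod_const, card_univ, Fintype.card_fin]
    push_cast
    exact pow_le_pow_left₀ (by positivity) (hG a) m
  refine h1.trans ((sum_le_sum h2).trans ?_)
  rw [sum_const, card_univ, nsmul_eq_mul, mul_pow, ← mul_assoc]
  simp

theorem sat_bound_half (k n m : ℕ) (hn : 0 < n) (hm : 2 * 2 ^ k * n ≤ m)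
    (S : Finset (Fin m → Cl k n))
    (hS : ∀ F ∈ S, ∃ a : Fin n → Bool, ∀ i, ∃ j, a ((F i).1 j) = (F i).2 j) :
    (S.card : ℝ) ≤ 1 / 2 * (Fintype.card (Cl k n) : ℝ) ^ m := by
  refine (sat_bound k n m S hS).trans ?_
  gcongr
  have h0 : (0 : ℝ) ≤ 1 - 1 / 2 ^ k := by
    have : (1 : ℝ) / 2 ^ k ≤ 1 := by
      rw [div_le_one (by positivity)]
      exact one_le_pow₀ (by norm_num)
    linarith
  have h1 : (1 : ℝ) - 1 / 2 ^ k ≤ 1 := by
    have : (0 : ℝ) ≤ 1 / 2 ^ k := by positivity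
    linarith
  have h2 : ((1 : ℝ) - 1 / 2 ^ k) ^ (2 ^ k) ≤ 1 / 2 := by
    calc ((1 : ℝ) - 1 / 2 ^ k) ^ (2 ^ k) ≤ (Real.exp (-(1 / 2 ^ k))) ^ (2 ^ k) := by
          apply pow_le_pow_left₀ h0
          have := Real.add_one_le_exp (-(1 / (2 : ℝ) ^ k))
          linarith
      _ = Real.exp (-1) := by
          rw [← Real.exp_nat_mul]
          congr 1
          push_cast
          field_simp
      _ ≤ 1 / 2 := by
          rw [Real.exp_neg, one_div]
          apply inv_anti₀ (by norm_num)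
          have := Real.add_one_le_exp (1 : ℝ)
          linarith
  calc (2 : ℝ) ^ n * (1 - 1 / 2 ^ k) ^ m ≤ 2 ^ n * (1 - 1 / 2 ^ k) ^ (2 * 2 ^ k * n) := by
        gcongr 2 ^ n * ?_
        exact pow_le_pow_of_le_one h0 h1 hm
    _ = 2 ^ n * (((1 - 1 / 2 ^ k) ^ (2 ^ k)) ^ 2) ^ n := by
        rw [← pow_mul, ← pow_mul]
        congr 2
        ring
    _ ≤ 2 ^ n * ((1 / 2) ^ 2) ^ n := by gcongr
    _ = (1 / 2) ^ n := by
        rw [← mul_pow]
        norm_num
    _ ≤ 1 / 2 := pow_le_of_le_one (by norm_num) (by norm_num) (by omega)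

theorem err_tendsto (k : ℕ) (hk : 0 < k) :
    Tendsto (fun n : ℕ => ((1 : ℝ) / 2) ^ (n / (2 * k ^ 3)) + 1 / (n : ℝ)) atTop (nhds 0) := by
  have h1 : Tendsto (fun n : ℕ => n / (2 * k ^ 3)) atTop atTop :=
    Nat.tendsto_div_const_atTop (by positivity)
  have h2 := (tendsto_pow_atTop_nhds_zero_of_lt_one (r := (1 : ℝ) / 2) (by norm_num)
    (by norm_num)).comp h1
  have h3 := tendsto_one_div_atTop_nhds_zero_nat (𝕜 := ℝ)
  simpa using h2.add h3

/-- With the rule `rule`, the formula is satisfiable whp up to density `4^k / (864 k^3)`. -/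
theorem sat_whp (k : ℕ) (hk : 4 ≤ k) (m : ℕ → ℕ)
    (hm : ∀ᶠ n in atTop, 864 * k ^ 3 * m n ≤ 4 ^ k * n)
    (S : (n : ℕ) → Finset (Fin (m n) → Cl k n × Cl k n))
    (hS : ∀ n ω, (∃ a : Fin n → Bool, ∀ i, ∃ j, a ((ch (ω i)).1 j) = (ch (ω i)).2 j) → ω ∈ S n) :
    Tendsto (fun n : ℕ => ((S n).card : ℝ) / (Fintype.card (Fin (m n) → Cl k n × Cl k n) : ℝ))
      atTop (nhds 1) := by
  have h1 : Tendsto (fun n : ℕ => 1 - (((1 : ℝ) / 2) ^ (n / (2 * k ^ 3)) + 1 / (n : ℝ)))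
      atTop (nhds 1) := by
    simpa using (err_tendsto k (by omega)).const_sub 1
  refine tendsto_of_tendsto_of_tendsto_of_le_of_le' h1 tendsto_const_nhds ?_ ?_
  · filter_upwards [hm, eventually_ge_atTop (2 * k ^ 3)] with n h2 h3
    have h4 := unsat_bound k n (m n) hk h3 h2 (univ.filter (fun ω => ¬ ω ∈ S n))
      (fun ω hω hsat => (mem_filter.mp hω).2 (hS n ω hsat))
    have h5 : (S n).card + (univ.filter (fun ω => ¬ ω ∈ S n)).card
        = Fintype.card (Fin (m n) → Cl k n × Cl k n) := by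
      rw [← card_univ, ← card_filter_add_card_filter_not (s := univ) (fun ω => ω ∈ S n)]
      congr 2
      ext ω
      simp
    have hkn : k ≤ n := by
      have : k ≤ k ^ 3 := Nat.le_self_pow (by norm_num) k
      omega
    have hN : (0 : ℝ) < (Fintype.card (Cl k n × Cl k n) : ℝ) := by
      rw [card_pair]
      have : 0 < n.descFactorial k := Nat.descFactorial_pos.mpr hkn
      positivity
    have h6 : (Fintype.card (Fin (m n) → Cl k n × Cl k n) : ℝ)
        = (Fintype.card (Cl k n × Cl k n) : ℝ) ^ m n := by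
      rw [Fintype.card_fun, Fintype.card_fin]
      push_cast
      rfl
    have h7 : ((S n).card : ℝ) + ((univ.filter (fun ω => ¬ ω ∈ S n)).card : ℝ)
        = (Fintype.card (Cl k n × Cl k n) : ℝ) ^ m n := by
      rw [← h6]
      exact_mod_cast h5
    rw [h6, le_div_iff₀ (pow_pos hN _)]
    linarith
  · refine Eventually.of_forall (fun n => ?_)
    apply div_le_one_of_le₀ _ (by positivity)
    exact_mod_cast card_le_univ (S n)

theorem cube_le (k : ℕ) (hk : 26 ≤ k) : 2592 * k ^ 3 ≤ 2 ^ k := by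
  induction k, hk using Nat.le_induction with
  | base => norm_num
  | succ k hk ih =>
    have h1 : (k + 1) ^ 3 ≤ 2 * k ^ 3 := by nlinarith [Nat.mul_le_mul hk hk]
    calc 2592 * (k + 1) ^ 3 ≤ 2592 * (2 * k ^ 3) := Nat.mul_le_mul_left _ h1
      _ = 2 * (2592 * k ^ 3) := by ring
      _ ≤ 2 * 2 ^ k := Nat.mul_le_mul_left _ ih
      _ = 2 ^ (k + 1) := by ring

/-- A density at which random k-SAT is satisfiable whp is eventually at most `2 * 2^k`. -/
theorem thr_le (k : ℕ) (s : ℕ → ℝ) (S : (n : ℕ) → Finset (Fin ⌊s n * (n : ℝ)⌋₊ → Cl k n))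
    (hS : ∀ n, ∀ F ∈ S n, ∃ a : Fin n → Bool, ∀ i, ∃ j, a ((F i).1 j) = (F i).2 j)
    (h : Tendsto (fun n : ℕ => ((S n).card : ℝ) /
      (Fintype.card (Fin ⌊s n * (n : ℝ)⌋₊ → Cl k n) : ℝ)) atTop (nhds 1)) :
    ∀ᶠ n in atTop, s n ≤ 2 * 2 ^ k := by
  have h1 := h.eventually (lt_mem_nhds (by norm_num : (1 : ℝ) / 2 < 1))
  filter_upwards [h1, eventually_gt_atTop 0] with n h2 h3
  by_contra hcon
  push Not at hcon
  have h4 : 2 * 2 ^ k * n ≤ ⌊s n * (n : ℝ)⌋₊ := by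
    apply Nat.le_floor
    push_cast
    gcongr
  have h5 := sat_bound_half k n _ h3 h4 (S n) (hS n)
  have h6 : (Fintype.card (Fin ⌊s n * (n : ℝ)⌋₊ → Cl k n) : ℝ)
      = (Fintype.card (Cl k n) : ℝ) ^ ⌊s n * (n : ℝ)⌋₊ := by
    rw [Fintype.card_fun, Fintype.card_fin]
    push_cast
    rfl
  rw [h6] at h2
  have h7 : ((S n).card : ℝ) / (Fintype.card (Cl k n) : ℝ) ^ ⌊s n * (n : ℝ)⌋₊ ≤ 1 / 2 :=
    div_le_of_le_mul₀ (by positivity) (by norm_num) h5
  linarith

theorem floor_le_of_thr (k n : ℕ) (hk : 26 ≤ k) (x : ℝ) (hx : x - 1 ≤ 2 * 2 ^ k) :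
    864 * k ^ 3 * ⌊(x + 1) * (n : ℝ)⌋₊ ≤ 4 ^ k * n := by
  have h1 : ⌊(x + 1) * (n : ℝ)⌋₊ ≤ 3 * 2 ^ k * n := by
    apply Nat.floor_le_of_le
    push_cast
    have : (2 : ℝ) ≤ 2 ^ k := by
      calc (2 : ℝ) = 2 ^ 1 := by norm_num
        _ ≤ 2 ^ k := pow_le_pow_right₀ (by norm_num) (by omega)
    gcongr
    linarith
  calc 864 * k ^ 3 * ⌊(x + 1) * (n : ℝ)⌋₊ ≤ 864 * k ^ 3 * (3 * 2 ^ k * n) :=
        Nat.mul_le_mul_left _ h1
    _ = (2592 * k ^ 3) * 2 ^ k * n := by ring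
    _ ≤ 2 ^ k * 2 ^ k * n := by
        gcongr
        exact cube_le k hk
    _ = 4 ^ k * n := by
        rw [← mul_pow]
        norm_num

end Pool.Agent.Lib.MP_1887ad_co
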