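import Mathlib

/-! Average entropy of the restriction of a uniform point of a set to `k` random coordinates. -/

set_option autoImplicit false
open Classical

namespace Pool.Agent.Lib.MP_1887ad_co.Online

open Finset

variable {k n : ℕ}

/-- Number of points of `S` whose restriction to the coordinates `V` is `τ`. -/
noncomputable def cnt (S : Finset (Fin n → Bool)) (V : Fin k ↪ Fin n) (τ : Fin k → Bool) : ℕ :=
  (S.filter (fun a => (fun j => a (V j)) = τ)).card

lemma cnt_le (S : Finset (Fin n → Bool)) (V : Fin k ↪ Fin n) (τ : Fin k → Bool) :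
    cnt S V τ ≤ S.card := card_filter_le _ _

lemma fiber (S : Finset (Fin n → Bool)) (V : Fin k ↪ Fin n) (g : (Fin k → Bool) → ℝ) :
    ∑ τ, (cnt S V τ : ℝ) * g τ = ∑ a ∈ S, g (fun j => a (V j)) := by
  rw [← sum_fiberwise S (fun a => (fun j => a (V j))) (fun a => g (fun j => a (V j)))]
  apply sum_congr rfl
  intro τ _
  rw [cnt, ← nsmul_eq_mul, ← sum_const]
  apply sum_congr
  · ext a
    simp only [mem_filter]
  · intro a ha
    rw [(mem_filter.mp ha).2]

lemma sum_cnt (S : Finset (Fin n → Bool)) (V : Fin k ↪ Fin n) :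
    ∑ τ, (cnt S V τ : ℝ) = S.card := by
  have := fiber S V (fun _ => 1)
  simpa using this

/-- `|S|` times the entropy of the restriction to `V`. -/
noncomputable def EE (S : Finset (Fin n → Bool)) (V : Fin k ↪ Fin n) : ℝ :=
  ∑ τ, (cnt S V τ : ℝ) * (Real.log S.card - Real.log (cnt S V τ))

lemma cover (S : Finset (Fin n → Bool)) (hS : S.Nonempty) (q : ℕ) (V : Fin q → (Fin k ↪ Fin n))
    (hV : ∀ v, ∃ i j, V i j = v) :
    (S.card : ℝ) * Real.log S.card ≤ ∑ i, EE S (V i) := by
  have hZ : (0 : ℝ) < S.card := by exact_mod_cast hS.card_pos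
  set p : Fin q → (Fin k → Bool) → ℝ := fun i τ => (cnt S (V i) τ : ℝ) / S.card with hp
  have hp0 : ∀ i τ, 0 ≤ p i τ := fun i τ => div_nonneg (Nat.cast_nonneg _) hZ.le
  have hp1 : ∀ i, ∑ τ, p i τ = 1 := by
    intro i
    simp only [hp]
    rw [← sum_div, sum_cnt, div_self hZ.ne']
  have hpos : ∀ a ∈ S, ∀ i, 0 < (cnt S (V i) (fun j => a (V i j)) : ℝ) := by
    intro a ha i
    have : 0 < cnt S (V i) (fun j => a (V i j)) := by
      apply card_pos.mpr
      exact ⟨a, mem_filter.mpr ⟨ha, rfl⟩⟩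
    exact_mod_cast this
  have h1 : ∑ a ∈ S, ∏ i, p i (fun j => a (V i j)) ≤ 1 := by
    have e1 : ∑ g : Fin q → (Fin k → Bool), ∏ i, p i (g i) = 1 := by
      have := prod_univ_sum (fun _ : Fin q => (univ : Finset (Fin k → Bool))) p
      rw [Fintype.piFinset_univ] at this
      rw [← this]
      simp [hp1]
    have hinj : Set.InjOn (fun (a : Fin n → Bool) (i : Fin q) (j : Fin k) => a (V i j)) S := by
      intro a _ b _ hab
      funext v
      obtain ⟨i, j, rfl⟩ := hV v
      exact congrFun (congrFun hab i) j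
    have e2 := sum_image (s := S) (g := fun (a : Fin n → Bool) (i : Fin q) (j : Fin k) => a (V i j))
      (f := fun g : Fin q → (Fin k → Bool) => ∏ i, p i (g i)) hinj
    rw [← e2, ← e1]
    apply sum_le_sum_of_subset_of_nonneg (subset_univ _)
    intro g _ _
    exact prod_nonneg (fun i _ => hp0 _ _)
  have h2 : ∀ a ∈ S, Real.log S.card
      - ∑ i, (Real.log S.card - Real.log (cnt S (V i) (fun j => a (V i j))))
      ≤ S.card * ∏ i, p i (fun j => a (V i j)) - 1 := by
    intro a ha
    have hpp : ∀ i, 0 < p i (fun j => a (V i j)) := fun i => div_pos (hpos a ha i) hZ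
    have hP : 0 < ∏ i, p i (fun j => a (V i j)) := prod_pos (fun i _ => hpp i)
    have := Real.log_le_sub_one_of_pos (mul_pos hZ hP)
    rw [Real.log_mul hZ.ne' hP.ne', Real.log_prod (fun i _ => (hpp i).ne')] at this
    have e : ∑ i, Real.log (p i (fun j => a (V i j)))
        = - ∑ i, (Real.log S.card - Real.log (cnt S (V i) (fun j => a (V i j)))) := by
      rw [← sum_neg_distrib]
      apply sum_congr rfl
      intro i _
      simp only [hp]
      rw [Real.log_div (hpos a ha i).ne' hZ.ne']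
      ring
    linarith
  have h3 := sum_le_sum h2
  rw [sum_sub_distrib, sum_sub_distrib, ← mul_sum, sum_comm] at h3
  simp only [sum_const, nsmul_eq_mul, mul_one] at h3
  have h4 : ∑ i, EE S (V i) = ∑ i, ∑ a ∈ S,
      (Real.log S.card - Real.log (cnt S (V i) (fun j => a (V i j)))) := by
    apply sum_congr rfl
    intro i _
    exact fiber S (V i) (fun τ => Real.log S.card - Real.log (cnt S (V i) τ))
  rw [h4]
  nlinarith

lemma avg (F : (Fin k ↪ Fin n) → ℝ) (V : Fin k ↪ Fin n) :
    (Fintype.card (Fin k ↪ Fin n) : ℝ) * ∑ π : Equiv.Perm (Fin n), F (V.trans π.toEmbedding)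
      = (Fintype.card (Equiv.Perm (Fin n)) : ℝ) * ∑ W, F W := by
  have h1 : ∀ W : Fin k ↪ Fin n, ∑ π : Equiv.Perm (Fin n), F (W.trans π.toEmbedding)
      = ∑ π : Equiv.Perm (Fin n), F (V.trans π.toEmbedding) := by
    intro W
    obtain ⟨ρ, hρ⟩ := Equiv.Perm.exists_extending_pair V W V.injective W.injective
    rw [← Equiv.sum_comp (Equiv.mulRight ρ) (fun π : Equiv.Perm (Fin n) => F (V.trans π.toEmbedding))]
    apply sum_congr rfl
    intro π _
    congr 1
    ext j
    simp [hρ]
  have h2 : ∀ π : Equiv.Perm (Fin n), ∑ W : Fin k ↪ Fin n, F (W.trans π.toEmbedding)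
      = ∑ W, F W := by
    intro π
    have hb : Function.Bijective (fun W : Fin k ↪ Fin n => W.trans π.toEmbedding) := by
      apply Finite.injective_iff_bijective.mp
      intro W W' h
      ext j
      have := congrArg (fun U : Fin k ↪ Fin n => U j) h
      simp only [Function.Embedding.trans_apply, Equiv.coe_toEmbedding, EmbeddingLike.apply_eq_iff_eq]
        at this
      rw [this]
    exact hb.sum_comp F
  calc (Fintype.card (Fin k ↪ Fin n) : ℝ) * ∑ π : Equiv.Perm (Fin n), F (V.trans π.toEmbedding)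
      = ∑ W : Fin k ↪ Fin n, ∑ π : Equiv.Perm (Fin n), F (W.trans π.toEmbedding) := by
        simp only [h1]
        rw [sum_const, card_univ, nsmul_eq_mul]
    _ = ∑ π : Equiv.Perm (Fin n), ∑ W : Fin k ↪ Fin n, F (W.trans π.toEmbedding) := sum_comm
    _ = _ := by
        simp only [h2]
        rw [sum_const, card_univ, nsmul_eq_mul]

lemma exists_cover (hk : 1 ≤ k) (hn : k ≤ n) :
    ∃ V : Fin (n / k + 1) → (Fin k ↪ Fin n), ∀ v, ∃ i j, V i j = v := by
  refine ⟨fun i => ⟨fun j => ⟨min (i.val * k) (n - k) + j.val, ?_⟩, ?_⟩, ?_⟩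
  · have := j.isLt
    have := min_le_right (i.val * k) (n - k)
    omega
  · intro j j' h
    have := congrArg Fin.val h
    simp only at this
    ext
    omega
  · intro v
    have hv := v.isLt
    by_cases h : n - k ≤ v.val
    · refine ⟨⟨n / k, by omega⟩, ⟨v.val - (n - k), by omega⟩, ?_⟩
      ext
      have h1 := Nat.div_add_mod' n k
      have h2 := Nat.mod_lt n (by omega : 0 < k)
      show min (n / k * k) (n - k) + (v.val - (n - k)) = v.val
      rw [min_eq_right (by omega)]
      omega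
    · have h1 := Nat.div_add_mod' v.val k
      have h2 := Nat.mod_lt v.val (by omega : 0 < k)
      have h3 : v.val / k ≤ n / k := Nat.div_le_div_right hv.le
      refine ⟨⟨v.val / k, by omega⟩, ⟨v.val % k, h2⟩, ?_⟩
      ext
      show min (v.val / k * k) (n - k) + v.val % k = v.val
      rw [min_eq_left (by omega)]
      omega

lemma entropy_avg (hk : 1 ≤ k) (hn : k ≤ n) (S : Finset (Fin n → Bool)) (hS : S.Nonempty) :
    (Fintype.card (Fin k ↪ Fin n) : ℝ) * S.card * (Real.log S.card / ((n / k + 1 : ℕ) : ℝ))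
      ≤ ∑ W : Fin k ↪ Fin n, EE S W := by
  obtain ⟨V, hV⟩ := exists_cover hk hn
  have hP : (0 : ℝ) < Fintype.card (Equiv.Perm (Fin n)) := by
    exact_mod_cast Fintype.card_pos
  have hq : (0 : ℝ) < ((n / k + 1 : ℕ) : ℝ) := by exact_mod_cast Nat.succ_pos _
  have h1 : ∀ π : Equiv.Perm (Fin n), (S.card : ℝ) * Real.log S.card
      ≤ ∑ i, EE S ((V i).trans π.toEmbedding) := by
    intro π
    apply cover S hS
    intro v
    obtain ⟨i, j, h⟩ := hV (π.symm v)
    exact ⟨i, j, by simp [h]⟩
  have h2 := sum_le_sum (fun π (_ : π ∈ (univ : Finset (Equiv.Perm (Fin n)))) => h1 π)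
  rw [sum_comm, sum_const, card_univ, nsmul_eq_mul] at h2
  have h3 := mul_le_mul_of_nonneg_left h2
    (Nat.cast_nonneg (α := ℝ) (Fintype.card (Fin k ↪ Fin n)))
  rw [mul_sum] at h3
  simp only [avg (EE S)] at h3
  rw [sum_const, card_univ, Fintype.card_fin, nsmul_eq_mul] at h3
  rw [← mul_div_assoc, div_le_iff₀ hq]
  apply le_of_mul_le_mul_left _ hP
  nlinarith

end Pool.Agent.Lib.MP_1887ad_co.Online
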