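import Mathlib

/-! Kernel inequality for the minimum of independent samples, under an entropy lower bound. -/

set_option autoImplicit false
open Classical

namespace Pool.Agent.Lib.MP_1887ad_co.Online

open Finset

/-- Increment of `x log x` between `j` and `j + 1`. -/
noncomputable def ee (j : ℕ) : ℝ :=
  ((j : ℝ) + 1) * Real.log ((j : ℝ) + 1) - (j : ℝ) * Real.log (j : ℝ)

lemma sum_ee (a : ℕ) : ∑ j ∈ range a, ee j = (a : ℝ) * Real.log (a : ℝ) := by
  induction a with
  | zero => simp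
  | succ a ih =>
    rw [sum_range_succ, ih, ee]
    push_cast
    ring

lemma log_sq_le (y : ℝ) (hy : 0 < y) :
    y * (y + 1) * (Real.log (y + 1) - Real.log y) ^ 2 ≤ 1 := by
  set D := Real.log (y + 1) - Real.log y with hD
  have hD0 : 0 ≤ D := by
    have := Real.log_le_log hy (by linarith : y ≤ y + 1)
    linarith
  have h1 : D / 2 ≤ Real.sinh (D / 2) := Real.self_le_sinh_iff.mpr (by linarith)
  rw [Real.sinh_eq] at h1
  have h2 : D ≤ Real.exp (D / 2) - Real.exp (-(D / 2)) := by linarith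
  have h3 : D ^ 2 ≤ (Real.exp (D / 2) - Real.exp (-(D / 2))) ^ 2 := by
    apply pow_le_pow_left₀ hD0 h2
  have e1 : Real.exp (D / 2) * Real.exp (D / 2) = (y + 1) / y := by
    rw [← Real.exp_add, add_halves, hD, Real.exp_sub, Real.exp_log (by linarith), Real.exp_log hy]
  have e2 : Real.exp (-(D / 2)) * Real.exp (-(D / 2)) = y / (y + 1) := by
    rw [← Real.exp_add]
    have : -(D / 2) + -(D / 2) = Real.log y - Real.log (y + 1) := by rw [hD]; ring
    rw [this, Real.exp_sub, Real.exp_log (by linarith), Real.exp_log (by linarith)]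
  have e3 : Real.exp (D / 2) * Real.exp (-(D / 2)) = 1 := by
    rw [← Real.exp_add]; simp
  have h4 : (Real.exp (D / 2) - Real.exp (-(D / 2))) ^ 2 = 1 / (y * (y + 1)) := by
    have : (Real.exp (D / 2) - Real.exp (-(D / 2))) ^ 2
        = Real.exp (D / 2) * Real.exp (D / 2) - 2 * (Real.exp (D / 2) * Real.exp (-(D / 2)))
          + Real.exp (-(D / 2)) * Real.exp (-(D / 2)) := by ring
    rw [this, e1, e2, e3]
    field_simp
    ring
  rw [h4, le_div_iff₀ (by positivity)] at h3
  linarith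

lemma sum_ee_sq (a : ℕ) :
    ∑ j ∈ range a, ee j ^ 2 ≤ (a : ℝ) * Real.log (a : ℝ) ^ 2 + a := by
  induction a with
  | zero => simp
  | succ a ih =>
    rw [sum_range_succ]
    rcases Nat.eq_zero_or_pos a with h | h
    · subst h
      simp [ee]
    · have hy : (0 : ℝ) < a := by exact_mod_cast h
      have := log_sq_le a hy
      push_cast
      unfold ee at ih ⊢
      nlinarith

lemma swap {C : Type} [Fintype C] (a : C → ℕ) (Z : ℕ) (ha : ∀ c, a c ≤ Z) (u : ℕ → ℝ) :
    ∑ j ∈ range Z, ((univ.filter (fun c => j < a c)).card : ℝ) * u j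
      = ∑ c, ∑ j ∈ range (a c), u j := by
  have h1 : ∀ j, ((univ.filter (fun c => j < a c)).card : ℝ) * u j
      = ∑ c, if j < a c then u j else 0 := by
    intro j
    rw [← sum_filter, sum_const, nsmul_eq_mul]
  simp only [h1]
  rw [sum_comm]
  apply sum_congr rfl
  intro c _
  rw [← sum_filter]
  apply sum_congr _ (fun _ _ => rfl)
  ext j
  have := ha c
  simp only [mem_filter, mem_range]
  omega

lemma pow_ge (y : ℝ) (hy : 0 ≤ y) (l : ℕ) :
    1 + ((l : ℝ) + 1) * (y - 1) + (l : ℝ) * (y - 1) ^ 2 ≤ y ^ (l + 1) := by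
  induction l with
  | zero => simp
  | succ l ih =>
    have key : (y - 1) ^ 2 ≤ (y ^ (l + 1) - 1) * (y - 1) := by
      rcases le_total y 1 with h | h
      · have : y ^ (l + 1) ≤ y := pow_le_of_le_one hy h (by omega)
        nlinarith
      · have : y ≤ y ^ (l + 1) := le_self_pow₀ h (by omega)
        nlinarith
    rw [pow_succ y (l + 1)]
    push_cast
    nlinarith

lemma kernel {C : Type} [Fintype C] (a : C → ℕ) (Z : ℕ) (ha : ∀ c, a c ≤ Z)
    (D x : ℝ) (hD : 0 < D) (hx : 0 ≤ x)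
    (h1 : ∑ c, (a c : ℝ) = D * Z)
    (h2 : D * Z * x ≤ ∑ c, (a c : ℝ) * (Real.log Z - Real.log (a c))) (l : ℕ) :
    D ^ (l + 1) * (Z * (1 + (l : ℝ) * x ^ 2))
      ≤ ∑ j ∈ range Z, ((univ.filter (fun c => j < a c)).card : ℝ) ^ (l + 1) := by
  set N : ℕ → ℝ := fun j => ((univ.filter (fun c => j < a c)).card : ℝ) with hN
  set d : ℕ → ℝ := fun j => Real.log Z - ee j with hd
  have s1 : ∑ j ∈ range Z, N j = D * Z := by
    have := swap a Z ha (fun _ => 1)
    simp only [mul_one, sum_const, card_range, nsmul_eq_mul] at this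
    rw [← h1, ← this]
  have s2 : D * Z * x ≤ ∑ j ∈ range Z, N j * d j := by
    have := swap a Z ha d
    rw [this]
    refine h2.trans (le_of_eq ?_)
    apply sum_congr rfl
    intro c _
    simp only [hd]
    rw [sum_sub_distrib, sum_ee, sum_const, card_range, nsmul_eq_mul]
    ring
  have s3 : ∑ j ∈ range Z, d j = 0 := by
    simp only [hd]
    rw [sum_sub_distrib, sum_ee, sum_const, card_range, nsmul_eq_mul]
    ring
  have s4 : ∑ j ∈ range Z, d j ^ 2 ≤ Z := by
    have e : ∀ j, d j ^ 2 = Real.log Z ^ 2 - 2 * Real.log Z * ee j + ee j ^ 2 := by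
      intro j; simp only [hd]; ring
    simp only [e]
    rw [sum_add_distrib, sum_sub_distrib, ← mul_sum, sum_ee, sum_const, card_range, nsmul_eq_mul]
    have := sum_ee_sq Z
    nlinarith
  have t1 : ∀ j, D ^ (l + 1) * (1 + ((l : ℝ) + 1) * (N j / D - 1)
      + (l : ℝ) * (2 * x * (N j * d j) / D - 2 * x * d j - x ^ 2 * d j ^ 2)) ≤ N j ^ (l + 1) := by
    intro j
    have hy : 0 ≤ N j / D := div_nonneg (Nat.cast_nonneg _) hD.le
    have p := pow_ge (N j / D) hy l
    have q : 2 * x * (N j * d j) / D - 2 * x * d j - x ^ 2 * d j ^ 2 ≤ (N j / D - 1) ^ 2 := by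
      have : 2 * x * (N j * d j) / D = 2 * x * d j * (N j / D) := by ring
      rw [this]
      nlinarith [sq_nonneg (N j / D - 1 - x * d j)]
    have r : N j ^ (l + 1) = D ^ (l + 1) * (N j / D) ^ (l + 1) := by
      rw [← mul_pow, mul_div_cancel₀ _ hD.ne']
    rw [r]
    apply mul_le_mul_of_nonneg_left _ (by positivity)
    have hl : (0 : ℝ) ≤ l := Nat.cast_nonneg _
    nlinarith [mul_le_mul_of_nonneg_left q hl]
  refine le_trans ?_ (sum_le_sum (fun j _ => t1 j))
  rw [← mul_sum]
  apply mul_le_mul_of_nonneg_left _ (by positivity)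
  rw [sum_add_distrib, sum_add_distrib, ← mul_sum, ← mul_sum, sum_sub_distrib, sum_sub_distrib,
    sum_sub_distrib, ← sum_div, ← sum_div, ← mul_sum, ← mul_sum, ← mul_sum, s1, s3]
  simp only [sum_const, card_range, nsmul_eq_mul, mul_one]
  have e1 : D * Z / D = Z := by field_simp
  have e2 : 2 * x * (Z * x) ≤ 2 * x * (∑ j ∈ range Z, N j * d j) / D := by
    rw [le_div_iff₀ hD]
    nlinarith [mul_le_mul_of_nonneg_left s2 hx]
  have e3 : x ^ 2 * ∑ j ∈ range Z, d j ^ 2 ≤ x ^ 2 * Z :=
    mul_le_mul_of_nonneg_left s4 (sq_nonneg x)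
  have hl : (0 : ℝ) ≤ l := Nat.cast_nonneg _
  rw [e1]
  have e4 : Z * x ^ 2 ≤ 2 * x * (∑ j ∈ range Z, N j * d j) / D - 2 * x * 0
      - x ^ 2 * ∑ j ∈ range Z, d j ^ 2 := by nlinarith
  nlinarith [mul_le_mul_of_nonneg_left e4 hl]

lemma choice_ge {C : Type} [Fintype C] (a : C → ℕ) (Z l : ℕ) (ha : ∀ c, a c ≤ Z)
    (r : (Fin l → C) → Fin l) :
    ∑ j ∈ range Z, ((univ.filter (fun c => j < a c)).card : ℝ) ^ l
      ≤ ∑ ω : Fin l → C, (a (ω (r ω)) : ℝ) := by
  have := swap (fun ω : Fin l → C => a (ω (r ω))) Z (fun ω => ha _) (fun _ => 1)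
  simp only [mul_one, sum_const, card_range, nsmul_eq_mul] at this
  rw [← this]
  apply sum_le_sum
  intro j _
  have h1 : (univ.filter (fun c => j < a c)).card ^ l
      = (Fintype.piFinset (fun _ : Fin l => univ.filter (fun c => j < a c))).card := by
    rw [Fintype.card_piFinset]
    simp
  have h2 : (Fintype.piFinset (fun _ : Fin l => univ.filter (fun c => j < a c))).card
      ≤ (univ.filter (fun ω : Fin l → C => j < a (ω (r ω)))).card := by
    apply card_le_card
    intro ω hω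
    rw [Fintype.mem_piFinset] at hω
    have := hω (r ω)
    simp only [mem_filter, mem_univ, true_and] at this ⊢
    exact this
  exact_mod_cast h1.le.trans h2

lemma arctan_step (y z : ℝ) (h0 : 0 ≤ z) (h : z ≤ y) :
    Real.arctan z ≤ Real.arctan y - (y - z) / (1 + y ^ 2) := by
  rcases h.eq_or_lt with h | h
  · subst h; simp
  · obtain ⟨c, hc, hc2⟩ := exists_hasDerivAt_eq_slope Real.arctan (fun t => 1 / (1 + t ^ 2)) h
      Real.continuous_arctan.continuousOn (fun t _ => Real.hasDerivAt_arctan t)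
    have hyz : 0 < y - z := by linarith
    rw [eq_div_iff hyz.ne'] at hc2
    have h1 : 1 / (1 + y ^ 2) ≤ 1 / (1 + c ^ 2) := by
      apply one_div_le_one_div_of_le (by positivity)
      have : c ^ 2 ≤ y ^ 2 := pow_le_pow_left₀ (by linarith [hc.1]) hc.2.le 2
      linarith
    have h2 : (y - z) / (1 + y ^ 2) = 1 / (1 + y ^ 2) * (y - z) := by ring
    have h3 := mul_le_mul_of_nonneg_right h1 hyz.le
    linarith

lemma exp_neg_le (t y : ℝ) (ht : 0 ≤ t) (h0 : 0 ≤ y) (h1 : y ≤ 1) :
    Real.exp (-(t * y)) ≤ 1 - t / (1 + t) * y := by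
  have h2 : 0 ≤ t * y := mul_nonneg ht h0
  have h3 : t * y ≤ t := by nlinarith
  have h4 : Real.exp (-(t * y)) ≤ 1 / (1 + t * y) := by
    rw [Real.exp_neg, one_div]
    apply inv_anti₀ (by positivity)
    linarith [Real.add_one_le_exp (t * y)]
  refine h4.trans ?_
  have h5 : 1 / (1 + t * y) = 1 - t * y / (1 + t * y) := by field_simp; ring
  have h6 : t * y / (1 + t) ≤ t * y / (1 + t * y) :=
    div_le_div_of_nonneg_left h2 (by positivity) (by linarith)
  have h7 : t / (1 + t) * y = t * y / (1 + t) := by ring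
  linarith

end Pool.Agent.Lib.MP_1887ad_co.Online
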