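import Mathlib
import Pool.Agent.Lib.MP_1887ad_co.OnlineKernel
import Pool.Agent.Lib.MP_1887ad_co.OnlineEntropy

/-! A supermartingale for the set of satisfying assignments under any online choice rule. -/

set_option autoImplicit false
open Classical

namespace Pool.Agent.Lib.MP_1887ad_co.Online

open Finset

variable {k n : ℕ}

/-- Clauses. -/
abbrev Cl (k n : ℕ) : Type := (Fin k ↪ Fin n) × (Fin k → Bool)

/-- Number of points of `S` falsifying the clause. -/
noncomputable def kill (S : Finset (Fin n → Bool)) (c : Cl k n) : ℕ :=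
  cnt S c.1 (fun j => !(c.2 j))

/-- Points of `S` satisfying the clause. -/
noncomputable def keep (S : Finset (Fin n → Bool)) (c : Cl k n) : Finset (Fin n → Bool) :=
  S.filter (fun a => ∃ j, a (c.1 j) = c.2 j)

lemma keep_card (S : Finset (Fin n → Bool)) (c : Cl k n) :
    (keep S c).card + kill S c = S.card := by
  rw [← card_filter_add_card_filter_not (s := S) (fun a => ∃ j, a (c.1 j) = c.2 j)]
  congr 1
  unfold kill cnt
  congr 1
  ext a
  simp only [mem_filter, not_exists, and_congr_right_iff]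
  intro _
  constructor
  · intro h j
    have : a (c.1 j) = !(c.2 j) := congrFun h j
    rw [this]
    cases c.2 j <;> simp
  · intro h
    funext j
    have := h j
    revert this
    cases a (c.1 j) <;> cases c.2 j <;> simp

lemma sum_kill (S : Finset (Fin n → Bool)) (g : ℕ → ℝ) :
    ∑ c : Cl k n, g (kill S c) = ∑ W : Fin k ↪ Fin n, ∑ τ, g (cnt S W τ) := by
  rw [Fintype.sum_prod_type]
  apply sum_congr rfl
  intro W _
  have hb : Function.Bijective (fun (s : Fin k → Bool) (j : Fin k) => !(s j)) := by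
    apply Function.Involutive.bijective
    intro s
    funext j
    simp
  exact hb.sum_comp (fun τ => g (cnt S W τ))

lemma kill_choice (hk : 1 ≤ k) (hn : k ≤ n) (S : Finset (Fin n → Bool)) (hS : S.Nonempty)
    (l : ℕ) (r : (Fin (l + 1) → Cl k n) → Fin (l + 1)) :
    (Fintype.card (Fin k ↪ Fin n) : ℝ) ^ (l + 1) *
      (S.card * (1 + (l : ℝ) * (Real.log S.card / ((n / k + 1 : ℕ) : ℝ)) ^ 2))
      ≤ ∑ ω : Fin (l + 1) → Cl k n, (kill S (ω (r ω)) : ℝ) := by
  have hD : (0 : ℝ) < Fintype.card (Fin k ↪ Fin n) := by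
    have : Nonempty (Fin k ↪ Fin n) := ⟨Fin.castLEEmb hn⟩
    exact_mod_cast Fintype.card_pos
  have hZ : (1 : ℝ) ≤ S.card := by exact_mod_cast hS.card_pos
  have hx : 0 ≤ Real.log S.card / ((n / k + 1 : ℕ) : ℝ) :=
    div_nonneg (Real.log_nonneg hZ) (Nat.cast_nonneg _)
  refine le_trans (kernel (kill (k := k) S) S.card (fun c => cnt_le _ _ _) _ _ hD hx ?_ ?_ l)
    (choice_ge (kill S) S.card (l + 1) (fun c => cnt_le _ _ _) r)
  · rw [sum_kill S (fun a => (a : ℝ))]
    simp only [sum_cnt]
    rw [sum_const, card_univ, nsmul_eq_mul]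
  · rw [sum_kill S (fun a => (a : ℝ) * (Real.log S.card - Real.log a))]
    exact entropy_avg hk hn S hS

/-- The potential. -/
noncomputable def pot (q w t : ℝ) (S : Finset (Fin n → Bool)) : ℝ :=
  if S.Nonempty then Real.exp (t * (q / w * Real.arctan (w * (Real.log S.card / q)))) else 0

lemma pot_nonneg (q w t : ℝ) (S : Finset (Fin n → Bool)) : 0 ≤ pot q w t S := by
  unfold pot
  split_ifs
  · exact (Real.exp_pos _).le
  · exact le_rfl

lemma one_le_pot (q w t : ℝ) (hq : 0 < q) (hw : 0 < w) (ht : 0 ≤ t) (S : Finset (Fin n → Bool))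
    (hS : S.Nonempty) : 1 ≤ pot q w t S := by
  unfold pot
  rw [if_pos hS]
  have hZ : (1 : ℝ) ≤ S.card := by exact_mod_cast hS.card_pos
  have h1 : 0 ≤ Real.log S.card := Real.log_nonneg hZ
  apply Real.one_le_exp
  have h2 : 0 ≤ Real.arctan (w * (Real.log S.card / q)) := by
    rw [← Real.arctan_zero]
    apply Real.arctan_strictMono.monotone
    positivity
  positivity

lemma pot_keep (q w t : ℝ) (hq : 0 < q) (hw : 0 < w) (ht : 0 ≤ t) (S : Finset (Fin n → Bool))
    (hS : S.Nonempty) (c : Cl k n) :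
    pot q w t (keep S c) ≤ pot q w t S * (1 - t / (1 + t) *
      ((kill S c : ℝ) / (S.card * (1 + w ^ 2 * (Real.log S.card / q) ^ 2)))) := by
  have hZ : (0 : ℝ) < S.card := by exact_mod_cast hS.card_pos
  have hcard : ((keep S c).card : ℝ) + kill S c = S.card := by exact_mod_cast keep_card S c
  set x := Real.log S.card / q with hx
  set y := (kill S c : ℝ) / (S.card * (1 + w ^ 2 * x ^ 2)) with hy
  have hy0 : 0 ≤ y := by positivity
  have hy1 : y ≤ 1 := by
    rw [hy, div_le_one (by positivity)]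
    have h1 : (0 : ℝ) ≤ (keep S c).card := Nat.cast_nonneg _
    have h2 : 0 ≤ S.card * (w ^ 2 * x ^ 2) := by positivity
    nlinarith
  have he := exp_neg_le t y ht hy0 hy1
  refine le_trans ?_ (mul_le_mul_of_nonneg_left he (pot_nonneg q w t S))
  by_cases hK : (keep S c).Nonempty
  · unfold pot
    rw [if_pos hK, if_pos hS, ← Real.exp_add]
    apply Real.exp_le_exp.mpr
    have hZ' : (1 : ℝ) ≤ (keep S c).card := by exact_mod_cast hK.card_pos
    have hk0 : (0 : ℝ) ≤ kill S c := Nat.cast_nonneg _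
    have hlog : Real.log (keep S c).card ≤ Real.log S.card - kill S c / S.card := by
      have h1 := Real.log_le_sub_one_of_pos (div_pos (by linarith : (0 : ℝ) < (keep S c).card) hZ)
      rw [Real.log_div (by linarith) hZ.ne'] at h1
      have h2 : ((keep S c).card : ℝ) / S.card - 1 = -(kill S c / S.card) := by
        field_simp
        linarith
      linarith
    have hf : 0 ≤ (kill S c : ℝ) / S.card := by positivity
    have h0 : 0 ≤ w * (Real.log (keep S c).card / q) := by
      have := Real.log_nonneg hZ'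
      positivity
    have h1 : w * (Real.log (keep S c).card / q) ≤ w * x := by
      apply mul_le_mul_of_nonneg_left _ hw.le
      apply div_le_div_of_nonneg_right _ hq.le
      linarith
    have h2 := arctan_step (w * x) _ h0 h1
    have h3 : y ≤ q / w * ((w * x - w * (Real.log (keep S c).card / q)) / (1 + (w * x) ^ 2)) := by
      have e1 : q / w * ((w * x - w * (Real.log (keep S c).card / q)) / (1 + (w * x) ^ 2))
          = (Real.log S.card - Real.log (keep S c).card) / (1 + w ^ 2 * x ^ 2) := by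
        have : w * x - w * (Real.log (keep S c).card / q)
            = w / q * (Real.log S.card - Real.log (keep S c).card) := by
          rw [hx]; field_simp
        rw [this]
        field_simp
      have e2 : y = (kill S c / S.card) / (1 + w ^ 2 * x ^ 2) := by
        rw [hy, div_div]
      rw [e1, e2]
      apply div_le_div_of_nonneg_right _ (by positivity)
      linarith
    have h4 := mul_le_mul_of_nonneg_left h2 (by positivity : 0 ≤ q / w)
    have h5 : q / w * Real.arctan (w * (Real.log (keep S c).card / q))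
        ≤ q / w * Real.arctan (w * x) - y := by linarith
    have h6 := mul_le_mul_of_nonneg_left h5 ht
    linarith
  · have : pot q w t (keep S c) = 0 := by unfold pot; rw [if_neg hK]
    rw [this]
    exact mul_nonneg (pot_nonneg q w t S) (Real.exp_pos _).le

lemma card_cl : (Fintype.card (Cl k n) : ℝ) = Fintype.card (Fin k ↪ Fin n) * 2 ^ k := by
  rw [Fintype.card_prod]
  simp

lemma one_step (hk : 1 ≤ k) (hn : k ≤ n) (l : ℕ) (w t : ℝ) (hw : 0 < w) (hwl : w ^ 2 = l)
    (ht : 0 ≤ t) (S : Finset (Fin n → Bool)) (r : (Fin (l + 1) → Cl k n) → Fin (l + 1)) :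
    ∑ ω : Fin (l + 1) → Cl k n, pot ((n / k + 1 : ℕ) : ℝ) w t (keep S (ω (r ω)))
      ≤ pot ((n / k + 1 : ℕ) : ℝ) w t S *
        ((Fintype.card (Fin (l + 1) → Cl k n) : ℝ) * (1 - t / (1 + t) / 2 ^ (k * (l + 1)))) := by
  have hq : (0 : ℝ) < ((n / k + 1 : ℕ) : ℝ) := by exact_mod_cast Nat.succ_pos _
  by_cases hS : S.Nonempty
  · have hZ : (0 : ℝ) < S.card := by exact_mod_cast hS.card_pos
    refine le_trans (sum_le_sum (fun ω _ => pot_keep _ w t hq hw ht S hS (ω (r ω)))) ?_
    rw [← mul_sum]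
    apply mul_le_mul_of_nonneg_left _ (pot_nonneg _ w t S)
    rw [sum_sub_distrib, ← mul_sum, ← sum_div, sum_const, card_univ, nsmul_eq_mul, mul_one, hwl]
    have h1 := kill_choice hk hn S hS l r
    rw [← le_div_iff₀ (by positivity)] at h1
    have h2 : (Fintype.card (Fin (l + 1) → Cl k n) : ℝ)
        = (Fintype.card (Fin k ↪ Fin n) : ℝ) ^ (l + 1) * 2 ^ (k * (l + 1)) := by
      rw [Fintype.card_fun, Fintype.card_fin, Nat.cast_pow, card_cl, mul_pow, ← pow_mul]
    have h3 : (Fintype.card (Fin (l + 1) → Cl k n) : ℝ) * (1 - t / (1 + t) / 2 ^ (k * (l + 1)))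
        = (Fintype.card (Fin (l + 1) → Cl k n) : ℝ)
          - t / (1 + t) * (Fintype.card (Fin k ↪ Fin n) : ℝ) ^ (l + 1) := by
      rw [mul_sub, mul_one]
      congr 1
      rw [h2]
      field_simp
    rw [h3]
    have h4 := mul_le_mul_of_nonneg_left h1 (by positivity : 0 ≤ t / (1 + t))
    linarith
  · have h0 : S = ∅ := not_nonempty_iff_eq_empty.mp hS
    subst h0
    simp [pot, keep]

lemma many_steps {P : Type} [Fintype P] {I : Type} (Ψ : Finset (Fin n → Bool) → ℝ)
    (ev : P → I → Cl k n) (ρ : ℝ) (hρ : 0 ≤ ρ)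
    (h : ∀ (S : Finset (Fin n → Bool)) (r : P → I), ∑ p, Ψ (keep S (ev p (r p))) ≤ Ψ S * ρ)
    (m : ℕ) : ∀ (S : Finset (Fin n → Bool)) (R : (Fin m → P) → Fin m → I),
      (∀ ω ω' i, (∀ j, j ≤ i → ω j = ω' j) → R ω i = R ω' i) →
      ∑ ω : Fin m → P, Ψ (S.filter (fun a => ∀ i, ∃ j,
        a ((ev (ω i) (R ω i)).1 j) = (ev (ω i) (R ω i)).2 j)) ≤ Ψ S * ρ ^ m := by
  induction m with
  | zero =>
    intro S R _
    simp
  | succ m ih =>
    intro S R hR
    rw [← (Fin.consEquiv (fun _ : Fin (m + 1) => P)).sum_comp, Fintype.sum_prod_type]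
    set r : P → I := fun p => R (fun _ => p) 0 with hr
    have key : ∀ p : P, ∑ ω : Fin m → P, Ψ (S.filter (fun a => ∀ i, ∃ j,
        a ((ev ((Fin.consEquiv (fun _ : Fin (m + 1) => P)) (p, ω) i)
          (R ((Fin.consEquiv (fun _ : Fin (m + 1) => P)) (p, ω)) i)).1 j)
        = (ev ((Fin.consEquiv (fun _ : Fin (m + 1) => P)) (p, ω) i)
          (R ((Fin.consEquiv (fun _ : Fin (m + 1) => P)) (p, ω)) i)).2 j))
        ≤ Ψ (keep S (ev p (r p))) * ρ ^ m := by
      intro p
      have h1 := ih (keep S (ev p (r p)))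
        (fun ω i => R ((Fin.consEquiv (fun _ : Fin (m + 1) => P)) (p, ω)) i.succ) (by
          intro ω ω' i hi
          apply hR
          intro j hj
          refine Fin.cases ?_ (fun j' hj' => ?_) j hj
          · intro _
            simp [Fin.consEquiv]
          · simp only [Fin.consEquiv, Equiv.coe_fn_mk, Fin.cons_succ]
            exact hi j' (Fin.succ_le_succ_iff.mp hj'))
      refine le_trans (le_of_eq ?_) h1
      apply sum_congr rfl
      intro ω _
      congr 1
      have h0 : R ((Fin.consEquiv (fun _ : Fin (m + 1) => P)) (p, ω)) 0 = r p := by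
        apply hR
        intro j hj
        have : j = 0 := Fin.le_zero_iff.mp hj
        subst this
        simp [Fin.consEquiv]
      ext a
      simp only [mem_filter, keep, Fin.forall_fin_succ, h0, and_assoc]
      simp [Fin.consEquiv]
    refine le_trans (sum_le_sum (fun p _ => key p)) ?_
    rw [← sum_mul, pow_succ' ρ m, ← mul_assoc]
    exact mul_le_mul_of_nonneg_right (h S r) (by positivity)

theorem bound (hk : 1 ≤ k) (hn : k ≤ n) (l m : ℕ) (w t : ℝ) (hw : 0 < w) (hwl : w ^ 2 = l)
    (ht : 0 ≤ t) (R : (Fin m → Fin (l + 1) → Cl k n) → Fin m → Fin (l + 1))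
    (hR : ∀ ω ω' i, (∀ j, j ≤ i → ω j = ω' j) → R ω i = R ω' i)
    (G : Finset (Fin m → Fin (l + 1) → Cl k n))
    (hG : ∀ ω ∈ G, ∃ a : Fin n → Bool, ∀ i, ∃ j, a ((ω i (R ω i)).1 j) = (ω i (R ω i)).2 j) :
    (G.card : ℝ) / (Fintype.card (Fin m → Fin (l + 1) → Cl k n) : ℝ)
      ≤ Real.exp (t * (((n : ℝ) / k + 1) / w * Real.arctan (w * (k * Real.log 2)))
          - m * (t / (1 + t) / 2 ^ (k * (l + 1)))) := by
  have hq : (0 : ℝ) < ((n / k + 1 : ℕ) : ℝ) := by exact_mod_cast Nat.succ_pos _
  set q : ℝ := ((n / k + 1 : ℕ) : ℝ) with hqd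
  set θ : ℝ := t / (1 + t) / 2 ^ (k * (l + 1)) with hθ
  have hθ1 : θ ≤ 1 := by
    rw [hθ, div_le_one (by positivity), div_le_iff₀ (by positivity)]
    have : (1 : ℝ) ≤ 2 ^ (k * (l + 1)) := one_le_pow₀ (by norm_num)
    nlinarith
  have hne : Nonempty (Cl k n) := ⟨(Fin.castLEEmb hn, fun _ => true)⟩
  have hM : (0 : ℝ) < Fintype.card (Fin (l + 1) → Cl k n) := by
    exact_mod_cast Fintype.card_pos
  have h1 := many_steps (pot q w t) (fun (p : Fin (l + 1) → Cl k n) (i : Fin (l + 1)) => p i)
    ((Fintype.card (Fin (l + 1) → Cl k n) : ℝ) * (1 - θ))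
    (mul_nonneg hM.le (by linarith))
    (fun S r => one_step hk hn l w t hw hwl ht S r) m univ R hR
  have h2 : (G.card : ℝ) ≤ ∑ ω : Fin m → Fin (l + 1) → Cl k n, pot q w t
      (univ.filter (fun a : Fin n → Bool => ∀ i, ∃ j,
        a ((ω i (R ω i)).1 j) = (ω i (R ω i)).2 j)) := by
    calc (G.card : ℝ) = ∑ _ω ∈ G, (1 : ℝ) := by simp
      _ ≤ ∑ ω ∈ G, pot q w t (univ.filter (fun a : Fin n → Bool => ∀ i, ∃ j,
            a ((ω i (R ω i)).1 j) = (ω i (R ω i)).2 j)) := by
          apply sum_le_sum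
          intro ω hω
          apply one_le_pot q w t hq hw ht
          obtain ⟨a, ha⟩ := hG ω hω
          exact ⟨a, mem_filter.mpr ⟨mem_univ _, ha⟩⟩
      _ ≤ _ := sum_le_sum_of_subset_of_nonneg (subset_univ _) (fun _ _ _ => pot_nonneg _ _ _ _)
  have h3 : (Fintype.card (Fin m → Fin (l + 1) → Cl k n) : ℝ)
      = (Fintype.card (Fin (l + 1) → Cl k n) : ℝ) ^ m := by
    rw [Fintype.card_fun, Fintype.card_fin, Nat.cast_pow]
  have h4 : pot q w t (univ : Finset (Fin n → Bool))
      ≤ Real.exp (t * (((n : ℝ) / k + 1) / w * Real.arctan (w * (k * Real.log 2)))) := by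
    unfold pot
    rw [if_pos univ_nonempty]
    apply Real.exp_le_exp.mpr
    apply mul_le_mul_of_nonneg_left _ ht
    have hkR : (0 : ℝ) < k := by exact_mod_cast hk
    have hl2 : 0 < Real.log 2 := Real.log_pos (by norm_num)
    have e1 : Real.log ((univ : Finset (Fin n → Bool)).card : ℝ) = n * Real.log 2 := by
      rw [card_univ, Fintype.card_fun]
      simp
    have e2 : q ≤ (n : ℝ) / k + 1 := by
      rw [hqd]
      push_cast
      have := @Nat.cast_div_le ℝ _ _ _ n k
      linarith
    have e3 : (n : ℝ) ≤ k * q := by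
      have h5 := Nat.div_add_mod n k
      have h6 := Nat.mod_lt n (by omega : 0 < k)
      have h7 : n ≤ k * (n / k + 1) := by rw [mul_add]; omega
      rw [hqd]
      exact_mod_cast h7
    have e4 : Real.arctan (w * (n * Real.log 2 / q)) ≤ Real.arctan (w * (k * Real.log 2)) := by
      apply Real.arctan_strictMono.monotone
      apply mul_le_mul_of_nonneg_left _ hw.le
      rw [div_le_iff₀ hq]
      nlinarith
    have e5 : 0 ≤ Real.arctan (w * (n * Real.log 2 / q)) := by
      rw [← Real.arctan_zero]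
      apply Real.arctan_strictMono.monotone
      positivity
    rw [e1]
    apply mul_le_mul _ e4 e5 (by positivity)
    exact div_le_div_of_nonneg_right e2 hw.le
  have h5 : (1 - θ) ^ m ≤ Real.exp (-(m * θ)) := by
    have h6 : 1 - θ ≤ Real.exp (-θ) := by linarith [Real.add_one_le_exp (-θ)]
    calc (1 - θ) ^ m ≤ Real.exp (-θ) ^ m := pow_le_pow_left₀ (by linarith) h6 m
      _ = _ := by rw [← Real.exp_nat_mul]; congr 1; ring
  rw [h3, div_le_iff₀ (by positivity), sub_eq_add_neg, Real.exp_add]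
  refine h2.trans (h1.trans ?_)
  rw [mul_pow, mul_comm (_ ^ m), ← mul_assoc]
  apply mul_le_mul_of_nonneg_right _ (by positivity)
  exact mul_le_mul h4 h5 (pow_nonneg (by linarith) m) (Real.exp_pos _).le

end Pool.Agent.Lib.MP_1887ad_co.Online
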